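import Pool.Agent.Lib.MP_d09955_co.Search

set_option autoImplicit false

namespace Pool.Agent.Lib.MP_d09955_co

open Finset

variable {V : Type} [DecidableEq V]

lemma exists_mask (n : ℕ) (p : ℕ → Prop) : ∃ m < 2 ^ n, ∀ i, m.testBit i = true ↔ i < n ∧ p i := by
  classical
  induction n with
  | zero => exact ⟨0, by simp, by simp⟩
  | succ n ih =>
    obtain ⟨m, hm, h⟩ := ih
    by_cases hp : p n
    · refine ⟨m ||| 2 ^ n, Nat.or_lt_two_pow (hm.trans (Nat.pow_lt_pow_succ (by norm_num)))
        (Nat.pow_lt_pow_succ (by norm_num)), fun i => ?_⟩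
      rw [Nat.testBit_or, Bool.or_eq_true, h, Nat.testBit_two_pow, decide_eq_true_iff]
      constructor
      · rintro (⟨a, b⟩ | rfl)
        · exact ⟨by omega, b⟩
        · exact ⟨by omega, hp⟩
      · rintro ⟨a, b⟩
        by_cases e : n = i
        · exact Or.inr e
        · exact Or.inl ⟨by omega, b⟩
    · refine ⟨m, hm.trans (Nat.pow_lt_pow_succ (by norm_num)), fun i => ?_⟩
      rw [h]
      constructor
      · rintro ⟨a, b⟩; exact ⟨by omega, b⟩
      · rintro ⟨a, b⟩
        refine ⟨?_, b⟩
        by_contra e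
        have : i = n := by omega
        exact hp (this ▸ b)

/-- the mask `m` represents the set `t` -/
def Rep (c : ℕ → V) (n m : ℕ) (t : Finset V) : Prop :=
  (∀ i, m.testBit i = true → i < n) ∧ ∀ v, v ∈ t ↔ ∃ i, m.testBit i = true ∧ c i = v

def Valid (T : Set (Finset V)) (c : ℕ → V) (n : ℕ) (fam : List ℕ) : Prop :=
  Set.InjOn c (Set.Iio n) ∧ ∀ e ∈ fam, ∃ t ∈ T, Rep c n e t

def Concl (T : Set (Finset V)) : Prop :=
  (∃ C : Finset V, C.card ≤ 6 ∧ ∀ t ∈ T, t ⊆ C) ∨
    ∃ a b c d x y z : V, [a, b, c, d, x, y, z].Nodup ∧ {a, b, x} ∈ T ∧ {c, d, x} ∈ T ∧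
      {a, c, y} ∈ T ∧ {b, d, y} ∈ T ∧ {b, c, z} ∈ T ∧ {a, d, z} ∈ T

lemma cnt_eq {c : ℕ → V} {n m : ℕ} (hc : Set.InjOn c (Set.Iio n)) {t : Finset V}
    (h : ∀ i, m.testBit i = true ↔ i < n ∧ c i ∈ t) :
    cnt n m = (t ∩ (range n).image c).card := by
  have h1 : cnt n m = ((range n).filter fun i => m.testBit i = true).card := by
    unfold cnt
    rw [← List.toFinset_card_of_nodup (List.nodup_range.filter _)]
    congr 1
    ext i; simp
  rw [h1, ← card_image_of_injOn (f := c)]
  · congr 1
    ext v
    simp only [mem_image, mem_filter, mem_range, mem_inter, h]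
    constructor
    · rintro ⟨i, ⟨a, -, b⟩, rfl⟩; exact ⟨b, i, a, rfl⟩
    · rintro ⟨b, i, a, rfl⟩; exact ⟨i, ⟨a, a, b⟩, rfl⟩
  · intro i hi j hj e
    simp only [coe_filter, mem_range, Set.mem_ofPred_eq] at hi hj
    exact hc hi.1 hj.1 e

lemma and_ne_zero_iff {m e : ℕ} :
    (m &&& e != 0) = true ↔ ∃ i, m.testBit i = true ∧ e.testBit i = true := by
  rw [bne_iff_ne]
  constructor
  · intro h
    obtain ⟨i, hi⟩ := Nat.exists_testBit_of_ne_zero h
    rw [Nat.testBit_and, Bool.and_eq_true] at hi
    exact ⟨i, hi⟩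
  · rintro ⟨i, a, b⟩ h
    have : (m &&& e).testBit i = true := by rw [Nat.testBit_and, a, b]; rfl
    rw [h] at this; simp at this

lemma hits_of_mem {T : Set (Finset V)} (hint : ∀ t ∈ T, ∀ t' ∈ T, (t ∩ t').Nonempty)
    {c : ℕ → V} {n : ℕ} {fam : List ℕ} (hv : Valid T c n fam) {t : Finset V} (ht : t ∈ T) {m : ℕ}
    (h : ∀ i, m.testBit i = true ↔ i < n ∧ c i ∈ t) : hits fam m = true := by
  unfold hits
  rw [List.all_eq_true]
  intro e he
  obtain ⟨t', ht', r1, r2⟩ := hv.2 e he
  obtain ⟨v, hv'⟩ := hint t ht t' ht'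
  rw [mem_inter] at hv'
  obtain ⟨i, a, rfl⟩ := (r2 v).1 hv'.2
  exact and_ne_zero_iff.2 ⟨i, (h i).2 ⟨r1 i a, hv'.1⟩, a⟩

lemma valid_extend {T : Set (Finset V)} {c : ℕ → V} {n : ℕ} {fam : List ℕ} (hv : Valid T c n fam)
    {v : V} (h : v ∉ (range n).image c) : Valid T (Function.update c n v) (n + 1) fam := by
  have h' : ∀ i < n, c i ≠ v := fun i hi e => h (mem_image.2 ⟨i, mem_range.2 hi, e⟩)
  constructor
  · intro i hi j hj e
    simp only [Set.mem_Iio] at hi hj
    by_cases a : i = n <;> by_cases b : j = n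
    · rw [a, b]
    · subst a
      rw [Function.update_self, Function.update_of_ne b] at e
      exact absurd e.symm (h' j (by omega))
    · subst b
      rw [Function.update_self, Function.update_of_ne a] at e
      exact absurd e (h' i (by omega))
    · rw [Function.update_of_ne a, Function.update_of_ne b] at e
      exact hv.1 (show i < n by omega) (show j < n by omega) e
  · intro e he
    obtain ⟨t, ht, r1, r2⟩ := hv.2 e he
    refine ⟨t, ht, fun i hi => (r1 i hi).trans (Nat.lt_succ_self n), fun w => ?_⟩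
    rw [r2]
    refine exists_congr fun i => and_congr_right fun hi => ?_
    rw [Function.update_of_ne (r1 i hi).ne]

lemma valid_cons {T : Set (Finset V)} {c : ℕ → V} {n : ℕ} {fam : List ℕ} (hv : Valid T c n fam)
    {t : Finset V} (ht : t ∈ T) (hs : t ⊆ (range n).image c) {m : ℕ}
    (h : ∀ i, m.testBit i = true ↔ i < n ∧ c i ∈ t) : Valid T c n (m :: fam) := by
  refine ⟨hv.1, fun e he => ?_⟩
  rcases List.mem_cons.1 he with rfl | he
  · refine ⟨t, ht, fun i hi => ((h i).1 hi).1, fun v => ⟨fun hv' => ?_, ?_⟩⟩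
    · obtain ⟨i, a, rfl⟩ := mem_image.1 (hs hv')
      exact ⟨i, (h i).2 ⟨mem_range.1 a, hv'⟩, rfl⟩
    · rintro ⟨i, a, rfl⟩; exact ((h i).1 a).2
  · exact hv.2 e he

lemma image_update {c : ℕ → V} {n : ℕ} (v : V) :
    (range (n + 1)).image (Function.update c n v) = insert v ((range n).image c) := by
  rw [range_add_one, image_insert, Function.update_self]
  congr 1
  exact image_congr fun i hi => Function.update_of_ne (mem_range.1 hi).ne _ _

omit [DecidableEq V] in
lemma mask_extend {c : ℕ → V} {n m : ℕ} {t : Finset V} {v : V} (hv : v ∈ t)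
    (h : ∀ i, m.testBit i = true ↔ i < n ∧ c i ∈ t) :
    ∀ i, (m ||| 2 ^ n).testBit i = true ↔ i < n + 1 ∧ Function.update c n v i ∈ t := by
  intro i
  rw [Nat.testBit_or, Bool.or_eq_true, h, Nat.testBit_two_pow, decide_eq_true_iff]
  by_cases e : i = n
  · subst e; simp [hv]
  · rw [Function.update_of_ne e]
    constructor
    · rintro (⟨a, b⟩ | a)
      · exact ⟨by omega, b⟩
      · exact absurd a.symm e
    · rintro ⟨a, b⟩; exact Or.inl ⟨by omega, b⟩

lemma rep_m3 {c : ℕ → V} {n a b d : ℕ} {t : Finset V} (h : Rep c n (m3 a b d) t) :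
    t = {c a, c b, c d} := by
  ext v
  rw [h.2]
  simp only [m3, Nat.testBit_or, Nat.testBit_two_pow, Bool.or_eq_true, decide_eq_true_iff,
    mem_insert, mem_singleton]
  constructor
  · rintro ⟨i, (rfl | rfl) | rfl, rfl⟩ <;> simp
  · rintro (rfl | rfl | rfl)
    · exact ⟨a, by simp, rfl⟩
    · exact ⟨b, by simp, rfl⟩
    · exact ⟨d, by simp, rfl⟩

theorem go_sound {T : Set (Finset V)} (h3 : ∀ t ∈ T, t.card = 3)
    (hint : ∀ t ∈ T, ∀ t' ∈ T, (t ∩ t').Nonempty) (hτ : ∀ x y : V, ∃ t ∈ T, x ∉ t ∧ y ∉ t)
    (f : ℕ) : ∀ (n : ℕ) (fam : List ℕ) (c : ℕ → V), fam ≠ [] → Valid T c n fam →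
      go f n fam = true → Concl T := by
  induction f with
  | zero => intro n fam c _ _ h; simp [go] at h
  | succ f ih =>
    intro n fam c hne hv h
    unfold go at h
    split at h
    · rename_i hnone
      rw [List.find?_eq_none] at hnone
      have hsub : ∀ t ∈ T, t ⊆ (range n).image c := by
        intro t ht
        by_contra hns
        obtain ⟨m, -, hm⟩ := exists_mask n fun i => c i ∈ t
        have h1 := hits_of_mem hint hv ht hm
        have hlt : (t ∩ (range n).image c).card < 3 := by
          rw [← h3 t ht]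
          exact card_lt_card ⟨inter_subset_left, fun hh => hns fun v hv' => (mem_inter.1 (hh hv')).2⟩
        obtain ⟨e0, he0⟩ := List.exists_mem_of_ne_nil fam hne
        obtain ⟨i0, a0, -⟩ := and_ne_zero_iff.1 (List.all_eq_true.1 h1 e0 he0)
        have hi0 := (hm i0).1 a0
        have hmem : c i0 ∈ t ∩ (range n).image c :=
          mem_inter.2 ⟨hi0.2, mem_image.2 ⟨i0, mem_range.2 hi0.1, rfl⟩⟩
        have : ∃ j < n, ∀ i < n, c i ∈ t → i = i0 ∨ i = j := by
          by_cases hex : ∃ j < n, c j ∈ t ∧ j ≠ i0
          · obtain ⟨j, a, b, d⟩ := hex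
            refine ⟨j, a, fun i hi hi' => ?_⟩
            by_contra hh
            push Not at hh
            have : ({c i0, c j, c i} : Finset V) ⊆ t ∩ (range n).image c := by
              intro v hv'
              simp only [mem_insert, mem_singleton] at hv'
              rcases hv' with rfl | rfl | rfl
              · exact hmem
              · exact mem_inter.2 ⟨b, mem_image.2 ⟨j, mem_range.2 a, rfl⟩⟩
              · exact mem_inter.2 ⟨hi', mem_image.2 ⟨i, mem_range.2 hi, rfl⟩⟩
            have h4 := card_le_card this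
            rw [card_eq_three.2 ⟨_, _, _, fun e => d (hv.1 hi0.1 a e).symm,
              fun e => hh.1 (hv.1 hi0.1 hi e).symm, fun e => hh.2 (hv.1 a hi e).symm, rfl⟩] at h4
            omega
          · push Not at hex
            exact ⟨i0, hi0.1, fun i hi hi' => Or.inl (hex i hi hi')⟩
        obtain ⟨j, hj, hj'⟩ := this
        apply hnone (i0, j) (by simp [pairMasks, hi0.1, hj])
        unfold hits at h1 ⊢
        rw [List.all_eq_true] at h1 ⊢
        intro e he
        obtain ⟨i, a, b⟩ := and_ne_zero_iff.1 (h1 e he)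
        refine and_ne_zero_iff.2 ⟨i, ?_, b⟩
        have := hj' i ((hm i).1 a).1 ((hm i).1 a).2
        simp only [Nat.testBit_or, Nat.testBit_two_pow, Bool.or_eq_true, decide_eq_true_iff]
        omega
      rw [Bool.or_eq_true, Bool.and_eq_true, decide_eq_true_iff, decide_eq_true_iff] at h
      rcases h with h | ⟨rfl, h⟩
      · exact Or.inl ⟨_, card_image_le.trans (by simpa using h), hsub⟩
      · right
        simp only [hasF, List.any_eq_true, Bool.and_eq_true, List.mem_range, decide_eq_true_iff,
          List.contains_iff_mem] at h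
        obtain ⟨a, ha, b, hb, x, hx, h1, d, hd, e, he, h2, y, hy, ⟨h3', h4⟩, z, hz, ⟨h5, h6⟩, hn⟩ := h
        have key : ∀ {p q r : ℕ}, m3 p q r ∈ fam → ({c p, c q, c r} : Finset V) ∈ T := by
          intro p q r hm
          obtain ⟨t, ht, hr⟩ := hv.2 _ hm
          rw [← rep_m3 hr]; exact ht
        refine ⟨c a, c b, c d, c e, c x, c y, c z, ?_, key h1, key h2, key h3', key h4, key h5,
          key h6⟩
        have : ([a, b, d, e, x, y, z].map c).Nodup := by
          refine hn.map_on fun i hi j hj hij => hv.1 ?_ ?_ hij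
          · simp only [List.mem_cons, List.not_mem_nil, or_false] at hi
            simp only [Set.mem_Iio]; omega
          · simp only [List.mem_cons, List.not_mem_nil, or_false] at hj
            simp only [Set.mem_Iio]; omega
        exact this
    · rename_i p _
      obtain ⟨t, ht, hx, hy⟩ := hτ (c p.1) (c p.2)
      obtain ⟨m, hm0, hm⟩ := exists_mask n fun i => c i ∈ t
      have h1 := hits_of_mem hint hv ht hm
      have h2 := List.all_eq_true.1 h m (List.mem_range.2 hm0)
      have b1 : m.testBit p.1 = false := by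
        rw [← Bool.not_eq_true, hm]; exact fun hh => hx hh.2
      have b2 : m.testBit p.2 = false := by
        rw [← Bool.not_eq_true, hm]; exact fun hh => hy hh.2
      simp only [b1, b2, h1, Bool.not_true, Bool.false_or] at h2
      have hc := cnt_eq hv.1 hm
      have hsd : (t \ (range n).image c).card + cnt n m = 3 := by
        rw [hc, card_sdiff_add_card_inter, h3 t ht]
      split_ifs at h2 with k3 k2 k1
      · refine ih n _ c (by simp) (valid_cons hv ht ?_ hm) h2
        exact sdiff_eq_empty_iff_subset.1 (card_eq_zero.1 (by omega))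
      · obtain ⟨v, e⟩ := card_eq_one.1 (show (t \ (range n).image c).card = 1 by omega)
        have hv1 : v ∈ t \ (range n).image c := by rw [e]; simp
        rw [mem_sdiff] at hv1
        refine ih _ _ _ (by simp) (valid_cons (valid_extend hv hv1.2) ht ?_
          (mask_extend hv1.1 hm)) h2
        rw [image_update]
        intro w hw
        by_cases hw' : w ∈ (range n).image c
        · exact mem_insert_of_mem hw'
        · have : w ∈ t \ (range n).image c := mem_sdiff.2 ⟨hw, hw'⟩
          rw [e, mem_singleton] at this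
          rw [this]; exact mem_insert_self _ _
      · obtain ⟨v, w, hvw, e⟩ := card_eq_two.1 (show (t \ (range n).image c).card = 2 by omega)
        have hv1 : v ∈ t \ (range n).image c := by rw [e]; simp
        have hw1 : w ∈ t \ (range n).image c := by rw [e]; simp
        rw [mem_sdiff] at hv1 hw1
        have hw2 : w ∉ (range (n + 1)).image (Function.update c n v) := by
          rw [image_update, mem_insert]
          rintro (hh | hh)
          · exact hvw hh.symm
          · exact hw1.2 hh
        refine ih _ _ _ (by simp) (valid_cons (valid_extend (valid_extend hv hv1.2) hw2) ht ?_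
          (mask_extend hw1.1 (mask_extend hv1.1 hm))) h2
        rw [image_update, image_update]
        intro u hu
        by_cases hu' : u ∈ (range n).image c
        · exact mem_insert_of_mem (mem_insert_of_mem hu')
        · have : u ∈ t \ (range n).image c := mem_sdiff.2 ⟨hu, hu'⟩
          rw [e, mem_insert, mem_singleton] at this
          rcases this with rfl | rfl <;> simp
      · rw [decide_eq_true_iff] at h2; omega

/-- An intersecting triple system with covering number at least three lives on at most six points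
or contains the Fano plane minus a line. -/
theorem triple_structure [Nonempty V] {T : Set (Finset V)} (h3 : ∀ t ∈ T, t.card = 3)
    (hint : ∀ t ∈ T, ∀ t' ∈ T, (t ∩ t').Nonempty) (hτ : ∀ x y : V, ∃ t ∈ T, x ∉ t ∧ y ∉ t) :
    Concl T := by
  obtain ⟨t, ht, -⟩ := hτ (Classical.arbitrary V) (Classical.arbitrary V)
  obtain ⟨a, b, d, hab, had, hbd, rfl⟩ := card_eq_three.1 (h3 t ht)
  refine go_sound h3 hint hτ 12 3 [7] (fun i => if i = 0 then a else if i = 1 then b else d)
    (by simp) ⟨?_, ?_⟩ go_true
  · intro i hi j hj e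
    simp only [Set.mem_Iio] at hi hj
    interval_cases i <;> interval_cases j <;> simp_all
  · intro e he
    rw [List.mem_singleton] at he
    subst he
    have h7 : ∀ i, Nat.testBit 7 i = true ↔ i < 3 := by
      intro i
      have := Nat.testBit_two_pow_sub_one 3 i
      norm_num at this
      rw [this, decide_eq_true_iff]
    refine ⟨_, ht, fun i hi => (h7 i).1 hi, fun v => ?_⟩
    simp only [h7, mem_insert, mem_singleton]
    constructor
    · rintro (rfl | rfl | rfl)
      · exact ⟨0, by simp⟩
      · exact ⟨1, by simp⟩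
      · exact ⟨2, by simp⟩
    · rintro ⟨i, hi, rfl⟩
      interval_cases i <;> simp

end Pool.Agent.Lib.MP_d09955_co
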