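import Pool.Agent.Lib.MP_d09955_co.Easy
import Pool.Agent.Lib.MP_d09955_co.Triples

set_option autoImplicit false
set_option linter.unusedSectionVars false
set_option synthInstance.maxSize 4000

namespace Pool.Agent.Lib.MP_d09955_co

open Finset

variable {V : Type} [Fintype V] [DecidableEq V]

/-- a minimal edge cover of a hypergraph of the class, with private vertices -/
structure Setup (E : Finset (Finset V)) where
  h4 : ∀ e ∈ E, e.card ≤ 4
  hint : ∀ e ∈ E, ∀ f ∈ E, (e ∩ f).Nonempty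
  hnp : NoPair E
  E' : Finset (Finset V)
  pv : Finset V → V
  sub : ∀ e ∈ E', e ∈ E
  cov : ∀ v, ∃ e ∈ E', v ∈ e
  pv_mem : ∀ e ∈ E', pv e ∈ e
  priv : ∀ e ∈ E', ∀ f ∈ E', pv e ∈ f → f = e

lemma exists_setup [Nonempty V] {E : Finset (Finset V)} (h4 : ∀ e ∈ E, e.card ≤ 4)
    (hint : ∀ e ∈ E, ∀ f ∈ E, (e ∩ f).Nonempty) (hcov : ∀ v, ∃ e ∈ E, v ∈ e) (hnp : NoPair E) :
    Nonempty (Setup E) := by
  classical
  obtain ⟨E', hE', hmin⟩ := exists_min_image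
    (E.powerset.filter fun F => ∀ v, ∃ e ∈ F, v ∈ e) card
    ⟨E, mem_filter.2 ⟨mem_powerset_self _, hcov⟩⟩
  rw [mem_filter, mem_powerset] at hE'
  have : ∀ e ∈ E', ∃ p ∈ e, ∀ f ∈ E', p ∈ f → f = e := by
    intro e he
    by_contra hh
    push Not at hh
    have h1 := hmin (E'.erase e) (mem_filter.2 ⟨mem_powerset.2 ((erase_subset _ _).trans hE'.1),
      fun v => by
        obtain ⟨f, hf, hv⟩ := hE'.2 v
        by_cases e' : f = e
        · obtain ⟨g, hg, a, b⟩ := hh v (e' ▸ hv)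
          exact ⟨g, mem_erase.2 ⟨b, hg⟩, a⟩
        · exact ⟨f, mem_erase.2 ⟨e', hf⟩, hv⟩⟩)
    have h2 := card_erase_lt_of_mem he
    omega
  choose! pv a b using this
  exact ⟨⟨h4, hint, hnp, E', pv, fun e he => hE'.1 he, hE'.2, a, b⟩⟩

namespace Setup

variable {E : Finset (Finset V)} (S : Setup E)

def C : Finset V := univ \ S.E'.image S.pv

lemma not_mem_C {v : V} : v ∉ S.C ↔ ∃ e ∈ S.E', S.pv e = v := by simp [C]

lemma pv_not_mem_C {e : Finset V} (he : e ∈ S.E') : S.pv e ∉ S.C := S.not_mem_C.2 ⟨e, he, rfl⟩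

lemma mem_C_of_ne {e : Finset V} (he : e ∈ S.E') {v : V} (hv : v ∈ e) (h : v ≠ S.pv e) :
    v ∈ S.C := by
  by_contra hh
  obtain ⟨f, hf, rfl⟩ := S.not_mem_C.1 hh
  exact h (by rw [S.priv f hf e he hv])

lemma ne_pv {e : Finset V} (he : e ∈ S.E') {v : V} (hv : v ∈ S.C) : v ≠ S.pv e :=
  fun h => S.pv_not_mem_C he (h ▸ hv)

lemma adj {e : Finset V} (he : e ∈ E) {u v : V} (hu : u ∈ e) (hv : v ∈ e) (h : u ≠ v) :
    Adj E u v := ⟨h, e, he, hu, hv⟩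

/-- a witness for a pair, with an edge of the cover -/
lemma wit (x y : V) : ∃ z, ∃ f ∈ S.E', z ∈ f ∧ z ≠ x ∧ z ≠ y ∧ ¬ Adj E z x ∧ ¬ Adj E z y := by
  obtain ⟨z, a⟩ := S.hnp x y
  obtain ⟨f, hf, hz⟩ := S.cov z
  exact ⟨z, f, hf, hz, a⟩

lemma tau (x y : V) : ∃ f ∈ S.E', x ∉ f ∧ y ∉ f := by
  obtain ⟨z, f, hf, hz, a, b, c, d⟩ := S.wit x y
  exact ⟨f, hf, fun h => c (adj (S.sub f hf) hz h a), fun h => d (adj (S.sub f hf) hz h b)⟩

lemma meet {e f : Finset V} (he : e ∈ S.E') (hf : f ∈ S.E') (h : e ≠ f) :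
    ∃ v ∈ S.C, v ∈ e ∧ v ∈ f := by
  obtain ⟨v, hv⟩ := S.hint e (S.sub e he) f (S.sub f hf)
  rw [mem_inter] at hv
  exact ⟨v, S.mem_C_of_ne he hv.1 fun hh => h (S.priv e he f hf (hh ▸ hv.2)).symm, hv⟩

lemma card_erase {e : Finset V} (he : e ∈ S.E') : (e.erase (S.pv e)).card = 3 := by
  have h1 := S.h4 e (S.sub e he)
  have h2 := card_erase_of_mem (S.pv_mem e he)
  by_contra hh
  obtain ⟨x, y, hx, -, hxy⟩ := sub_two (s := e.erase (S.pv e)) (by omega) (S.pv e)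
  obtain ⟨f, hf, a, b⟩ := S.tau x y
  have hxe : x ∈ e := hx.elim mem_of_mem_erase fun h => h ▸ S.pv_mem e he
  obtain ⟨v, hv, c, d⟩ := S.meet he hf (fun h => a (h ▸ hxe))
  rcases hxy v (mem_erase.2 ⟨S.ne_pv he hv, c⟩) with rfl | rfl <;> contradiction

lemma shape {e : Finset V} (he : e ∈ S.E') {w : V} (hw : w ∈ e) (hwC : w ∈ S.C) :
    ∃ a b, a ≠ b ∧ a ≠ w ∧ b ≠ w ∧ a ∈ S.C ∧ b ∈ S.C ∧ a ∈ e ∧ b ∈ e ∧
      ∀ v ∈ e, v = S.pv e ∨ v = w ∨ v = a ∨ v = b := by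
  have h1 : w ∈ e.erase (S.pv e) := mem_erase.2 ⟨S.ne_pv he hwC, hw⟩
  obtain ⟨a, b, hab, h⟩ := card_eq_two.1 (show ((e.erase (S.pv e)).erase w).card = 2 by
    rw [card_erase_of_mem h1, S.card_erase he])
  have ha : a ∈ (e.erase (S.pv e)).erase w := by rw [h]; simp
  have hb : b ∈ (e.erase (S.pv e)).erase w := by rw [h]; simp
  simp only [mem_erase] at ha hb
  refine ⟨a, b, hab, ha.1, hb.1, S.mem_C_of_ne he ha.2.2 ha.2.1, S.mem_C_of_ne he hb.2.2 hb.2.1,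
    ha.2.2, hb.2.2, fun v hv => ?_⟩
  by_cases h1 : v = S.pv e
  · exact Or.inl h1
  by_cases h2 : v = w
  · exact Or.inr (Or.inl h2)
  have : v ∈ (e.erase (S.pv e)).erase w := by simp [h1, h2, hv]
  rw [h] at this
  exact Or.inr (Or.inr (by simpa using this))

lemma fact1 {e : Finset V} (he : e ∈ S.E') {w : V} (hw : w ∈ e) (hwC : w ∈ S.C) :
    ∃ f ∈ S.E', f ≠ e ∧ w ∈ f ∧ ∀ v ∈ f, v ∈ e → v = w := by
  obtain ⟨a, b, -, -, -, -, -, ha, -, h⟩ := S.shape he hw hwC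
  obtain ⟨f, hf, h1, h2⟩ := S.tau a b
  have hne : f ≠ e := fun hh => h1 (hh ▸ ha)
  have key : ∀ v ∈ f, v ∈ e → v = w := by
    intro v hv hv'
    rcases h v hv' with rfl | rfl | rfl | rfl
    · exact absurd (S.priv e he f hf hv) hne
    · rfl
    · contradiction
    · contradiction
  obtain ⟨v, -, h3, h4⟩ := S.meet hf he hne
  exact ⟨f, hf, hne, key v h3 h4 ▸ h3, key⟩

lemma witness_rule (h3 : ∀ g ∈ E, 3 ≤ (g ∩ S.C).card) : IsCore E S.C := by
  refine ⟨h3, fun x hx y hy => ?_⟩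
  by_contra hn
  push Not at hn
  obtain ⟨z, e0, he0, hz, z1, z2, z3, z4⟩ := S.wit x y
  have hzC : z ∈ S.C := by
    by_contra h
    exact z4 (hn z h z3)
  obtain ⟨a, b, -, haz, -, haC, -, ha, -, hsh⟩ := S.shape he0 hz hzC
  obtain ⟨w, e1, he1, hw, w1, w2, w3, w4⟩ := S.wit a b
  have k : ∀ g ∈ E, w ∈ g → z ∈ g ∨ S.pv e0 ∈ g := by
    intro g hg hwg
    obtain ⟨v, hv⟩ := S.hint e0 (S.sub e0 he0) g hg
    rw [mem_inter] at hv
    rcases hsh v hv.1 with rfl | rfl | rfl | rfl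
    · exact Or.inr hv.2
    · exact Or.inl hv.2
    · exact absurd (adj hg hwg hv.2 w1) w3
    · exact absurd (adj hg hwg hv.2 w2) w4
  have hwe : w ∉ e0 := fun h => w3 (adj (S.sub e0 he0) h ha w1)
  by_cases hwC : w ∈ S.C
  · obtain ⟨f, hf, -, hwf, hk⟩ := S.fact1 he1 hw hwC
    have k' : ∀ g ∈ S.E', w ∈ g → z ∈ g := fun g hg hwg =>
      (k g (S.sub g hg) hwg).resolve_right fun h => hwe (S.priv e0 he0 g hg h ▸ hwg)
    exact hwe (hk z (k' f hf hwf) (k' e1 he1 hw) ▸ hz)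
  · have k' : ∀ g ∈ E, w ∈ g → z ∈ g := fun g hg hwg =>
      (k g hg hwg).resolve_right fun h => hwe (by
        rw [outside_unique (S.h4 g hg) (h3 g hg) hwg h hwC (S.pv_not_mem_C he0)]
        exact S.pv_mem e0 he0)
    by_cases h1 : Adj E w x
    · obtain ⟨-, g, hg, p1, p2⟩ := h1
      exact z3 (adj hg (k' g hg p1) p2 z1)
    · obtain ⟨-, g, hg, p1, p2⟩ := hn w hwC h1
      exact z4 (adj hg (k' g hg p1) p2 z2)

end Setup

lemma fin_seven : ∀ s : Finset (Fin 7), s.card ≤ 3 →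
    (∀ t ∈ ({{0, 1, 4}, {2, 3, 4}, {0, 2, 5}, {1, 3, 5}, {1, 2, 6}, {0, 3, 6}} :
      Finset (Finset (Fin 7))), ∃ i ∈ t, i ∈ s) → s ∈ elevenTriples ∧ s.card = 3 := by
  decide +kernel

lemma concl_emb {T : Set (Finset V)} (h : Concl T) :
    (∃ C : Finset V, C.card ≤ 6 ∧ ∀ t ∈ T, t ⊆ C) ∨ ∃ c : Fin 7 ↪ V,
      (∀ t ∈ ({{0, 1, 4}, {2, 3, 4}, {0, 2, 5}, {1, 3, 5}, {1, 2, 6}, {0, 3, 6}} :
        Finset (Finset (Fin 7))), t.map c ∈ T) := by
  rcases h with h | ⟨a, b, c, d, x, y, z, hn, h1, h2, h3, h4, h5, h6⟩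
  · exact Or.inl h
  · right
    have hi : Function.Injective ![a, b, c, d, x, y, z] := by
      rw [← List.nodup_ofFn]; simpa [List.ofFn_succ] using hn
    refine ⟨⟨_, hi⟩, ?_⟩
    simp only [mem_insert, mem_singleton]
    rintro t (rfl | rfl | rfl | rfl | rfl | rfl) <;>
      simp only [map_insert, map_singleton, Function.Embedding.coeFn_mk] <;> assumption

lemma eleven_of_hits {c : Fin 7 ↪ V} {s : Finset V} (hs : s.card = 3)
    (h : ∀ t ∈ ({{0, 1, 4}, {2, 3, 4}, {0, 2, 5}, {1, 3, 5}, {1, 2, 6}, {0, 3, 6}} :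
        Finset (Finset (Fin 7))), ∃ v ∈ t.map c, v ∈ s) : ∃ t ∈ elevenTriples, s = t.map c := by
  have hsub : (univ.filter fun i => c i ∈ s).map c ⊆ s := by
    intro v hv
    obtain ⟨i, hi, rfl⟩ := mem_map.1 hv
    exact (mem_filter.1 hi).2
  have hc := card_le_card hsub
  rw [card_map] at hc
  obtain ⟨h1, h2⟩ := fin_seven (univ.filter fun i => c i ∈ s) (by omega) fun t ht => by
    obtain ⟨v, hv, hv'⟩ := h t ht
    obtain ⟨i, hi, rfl⟩ := mem_map.1 hv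
    exact ⟨i, hi, mem_filter.2 ⟨mem_univ _, hv'⟩⟩
  exact ⟨_, h1, (eq_of_subset_of_card_le hsub (by rw [card_map]; omega)).symm⟩

namespace Setup

variable {E : Finset (Finset V)} (S : Setup E)

lemma core_case [Nonempty V] (h3 : ∀ g ∈ E, 3 ≤ (g ∩ S.C).card) :
    (∃ C : Finset V, C.card ≤ 6 ∧ IsCore E C) ∨ SevenCore E := by
  have hcore := S.witness_rule h3
  have erC : ∀ e ∈ S.E', e.erase (S.pv e) ⊆ S.C := fun e he v hv =>
    S.mem_C_of_ne he (mem_of_mem_erase hv) (ne_of_mem_erase hv)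
  have hint' : ∀ e ∈ S.E', ∀ f ∈ S.E', ∃ v ∈ e.erase (S.pv e), v ∈ f.erase (S.pv f) := by
    intro e he f hf
    by_cases h : e = f
    · subst h
      obtain ⟨v, hv⟩ : (e.erase (S.pv e)).Nonempty := card_pos.1 (by rw [S.card_erase he]; omega)
      exact ⟨v, hv, hv⟩
    · obtain ⟨v, hv, a, b⟩ := S.meet he hf h
      exact ⟨v, mem_erase.2 ⟨S.ne_pv he hv, a⟩, mem_erase.2 ⟨S.ne_pv hf hv, b⟩⟩
  have Csub : ∀ D : Finset V, (∀ e ∈ S.E', e.erase (S.pv e) ⊆ D) → S.C ⊆ D := by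
    intro D hD v hv
    obtain ⟨e, he, hve⟩ := S.cov v
    exact hD e he (mem_erase.2 ⟨S.ne_pv he hv, hve⟩)
  have gen : ∀ W : Finset V → Prop, (∀ x y : V, ∃ e ∈ S.E', W e ∧ x ∉ e.erase (S.pv e) ∧
      y ∉ e.erase (S.pv e)) → S.C.card ≤ 6 ∨ ∃ c : Fin 7 ↪ V, S.C = univ.map c ∧
        ∀ t ∈ ({{0, 1, 4}, {2, 3, 4}, {0, 2, 5}, {1, 3, 5}, {1, 2, 6}, {0, 3, 6}} :
        Finset (Finset (Fin 7))), ∃ e ∈ S.E', W e ∧ t.map c = e.erase (S.pv e) := by
    intro W hW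
    have := triple_structure (T := {t | ∃ e ∈ S.E', W e ∧ t = e.erase (S.pv e)})
      (by rintro _ ⟨e, he, -, rfl⟩; exact S.card_erase he)
      (by
        rintro _ ⟨e, he, -, rfl⟩ _ ⟨f, hf, -, rfl⟩
        obtain ⟨v, a, b⟩ := hint' e he f hf
        exact ⟨v, mem_inter.2 ⟨a, b⟩⟩)
      (fun x y => by
        obtain ⟨e, he, a, b⟩ := hW x y
        exact ⟨_, ⟨e, he, a, rfl⟩, b⟩)
    rcases concl_emb this with ⟨D, hD, h⟩ | ⟨c, h⟩
    · left
      refine (card_le_card (Csub D fun e he => ?_)).trans hD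
      by_contra hns
      have hlt : (e.erase (S.pv e) ∩ D).card ≤ 2 := by
        have : (e.erase (S.pv e) ∩ D).card < (e.erase (S.pv e)).card :=
          card_lt_card ⟨inter_subset_left, fun hh => hns fun v hv => (mem_inter.1 (hh hv)).2⟩
        rw [S.card_erase he] at this
        omega
      obtain ⟨x, y, -, -, hxy⟩ := sub_two hlt (S.pv e)
      obtain ⟨f, hf, a, b, c⟩ := hW x y
      obtain ⟨v, p1, p2⟩ := hint' e he f hf
      rcases hxy v (mem_inter.2 ⟨p1, h _ ⟨f, hf, a, rfl⟩ p2⟩) with rfl | rfl <;> contradiction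
    · right
      refine ⟨c, Subset.antisymm (Csub _ fun e he => ?_) ?_, h⟩
      · obtain ⟨t, -, ht⟩ := eleven_of_hits (c := c) (S.card_erase he) fun t ht => by
          obtain ⟨f, hf, -, e'⟩ := h t ht
          rw [e']; exact hint' f hf e he
        rw [ht]; exact map_subset_map.2 (subset_univ _)
      · intro v hv
        obtain ⟨i, -, rfl⟩ := mem_map.1 hv
        have : ∀ i : Fin 7, ∃ t ∈ ({{0, 1, 4}, {2, 3, 4}, {0, 2, 5}, {1, 3, 5}, {1, 2, 6},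
          {0, 3, 6}} : Finset (Finset (Fin 7))), i ∈ t := by decide +kernel
        obtain ⟨t, ht, hi⟩ := this i
        obtain ⟨f, hf, -, e'⟩ := h t ht
        exact erC f hf (e' ▸ mem_map_of_mem c hi)
  by_cases h6 : S.C.card ≤ 6
  · exact Or.inl ⟨_, h6, hcore⟩
  right
  obtain ⟨c, hc, h⟩ := (gen (fun e => ∃ x ∈ S.C, ∃ y ∈ S.C, x ≠ y ∧ ¬ Adj E (S.pv e) x ∧
      ¬ Adj E (S.pv e) y) fun x y => by
    have : ∃ x' ∈ S.C, ∃ y' ∈ S.C, x' ≠ y' ∧ (x ∈ S.C → x = x' ∨ x = y') ∧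
        (y ∈ S.C → y = x' ∨ y = y') := by
      obtain ⟨D, hD1, hD2, hD3⟩ := exists_subsuperset_card_eq (s := {x, y} ∩ S.C) (t := S.C) (n := 2)
        inter_subset_right ((card_le_card inter_subset_left).trans card_le_two) (by omega)
      obtain ⟨x', y', hne, rfl⟩ := card_eq_two.1 hD3
      refine ⟨x', hD2 (by simp), y', hD2 (by simp), hne, fun hh => ?_, fun hh => ?_⟩
      · simpa using hD1 (mem_inter.2 ⟨by simp, hh⟩)
      · simpa using hD1 (mem_inter.2 ⟨by simp, hh⟩)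
    obtain ⟨x', hx, y', hy, hne, k1, k2⟩ := this
    obtain ⟨p, hp, a, b⟩ := hcore.2 x' hx y' hy
    obtain ⟨e, he, rfl⟩ := S.not_mem_C.1 hp
    have k : ∀ v, (v ∈ S.C → v = x' ∨ v = y') → v ∉ e.erase (S.pv e) := by
      intro v hv hv'
      have := adj (S.sub e he) (S.pv_mem e he) (mem_of_mem_erase hv') (ne_of_mem_erase hv').symm
      rcases hv (erC e he hv') with rfl | rfl <;> contradiction
    exact ⟨e, he, ⟨x', hx, y', hy, hne, a, b⟩, k x k1, k y k2⟩).resolve_left h6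
  refine ⟨c, hc ▸ hcore, fun g hg hg3 => eleven_of_hits hg3 fun t ht => ?_⟩
  rw [← hc] at hg3 ⊢
  obtain ⟨e, he, ⟨x, hx, y, hy, hne, a, b⟩, e'⟩ := h t ht
  rw [e']
  by_contra hh
  push Not at hh
  obtain ⟨v, hv⟩ := S.hint e (S.sub e he) g hg
  rw [mem_inter] at hv
  have hvp : v = S.pv e := by
    by_contra h'
    exact hh v (mem_erase.2 ⟨h', hv.1⟩) (mem_inter.2 ⟨hv.2, S.mem_C_of_ne he hv.1 h'⟩)
  subst hvp
  have nb : ∀ u ∈ e.erase (S.pv e) ∪ g ∩ S.C, Adj E (S.pv e) u := by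
    intro u hu
    rcases mem_union.1 hu with hu | hu
    · exact adj (S.sub e he) hv.1 (mem_of_mem_erase hu) (ne_of_mem_erase hu).symm
    · exact adj hg hv.2 (mem_inter.1 hu).1 (S.ne_pv he (mem_inter.1 hu).2).symm
  have h8 : (e.erase (S.pv e) ∪ g ∩ S.C ∪ {x, y}).card = 8 := by
    rw [card_union_of_disjoint, card_union_of_disjoint (disjoint_left.2 hh), S.card_erase he, hg3,
      card_pair hne]
    rw [disjoint_left]
    intro u hu hu'
    have := nb u hu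
    simp only [mem_insert, mem_singleton] at hu'
    rcases hu' with rfl | rfl <;> contradiction
  have h7 : (e.erase (S.pv e) ∪ g ∩ S.C ∪ {x, y}).card ≤ S.C.card :=
    card_le_card (union_subset (union_subset (erC e he) inter_subset_right)
      (by simp [insert_subset_iff, hx, hy]))
  rw [hc, card_map] at h7
  rw [hc] at h8
  simp only [card_univ, Fintype.card_fin] at h7
  omega

end Setup

end Pool.Agent.Lib.MP_d09955_co
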