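import Mathlib

/-! Hypergraphs on a finite vertex type `V` are given by their edge sets `E`. -/

set_option autoImplicit false

namespace Pool.Agent.Lib.MP_d09955_co

open Finset

variable {V : Type} [Fintype V] [DecidableEq V]

/-- two distinct vertices lying in a common edge -/
def Adj (E : Finset (Finset V)) (u v : V) : Prop := u ≠ v ∧ ∃ e ∈ E, u ∈ e ∧ v ∈ e

/-- dominating sets -/
def Dominating (E : Finset (Finset V)) (D : Finset V) : Prop := ∀ v, v ∉ D → ∃ u ∈ D, Adj E v u

/-- the domination number -/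
noncomputable def domNum (E : Finset (Finset V)) : ℕ :=
  sInf {n | ∃ D : Finset V, Dominating E D ∧ D.card = n}

/-- `C` is a core: every edge has at least three vertices in `C`, and every two vertices of `C`
are both non-adjacent to some vertex outside `C`. -/
def IsCore (E : Finset (Finset V)) (C : Finset V) : Prop :=
  (∀ e ∈ E, 3 ≤ (e ∩ C).card) ∧ ∀ x ∈ C, ∀ y ∈ C, ∃ p, p ∉ C ∧ ¬ Adj E p x ∧ ¬ Adj E p y

/-- the seven Fano lines `014, 234, 025, 135, 126, 036, 456` and the four triples in `0123` -/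
def elevenTriples : Finset (Finset (Fin 7)) :=
  {{0, 1, 4}, {2, 3, 4}, {0, 2, 5}, {1, 3, 5}, {1, 2, 6}, {0, 3, 6}, {4, 5, 6},
    {0, 1, 2}, {0, 1, 3}, {0, 2, 3}, {1, 2, 3}}

/-- a core of seven labelled vertices in which every edge has four vertices or one of the eleven
triples -/
def SevenCore (E : Finset (Finset V)) : Prop :=
  ∃ c : Fin 7 ↪ V, IsCore E (univ.map c) ∧
    ∀ e ∈ E, (e ∩ univ.map c).card = 3 → ∃ t ∈ elevenTriples, e ∩ univ.map c = t.map c

/-- the three obligatory edges of the exceptional family -/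
def threeEdges : Finset (Finset (Fin 9)) := {{0, 1, 7, 8}, {2, 3, 6, 8}, {4, 5, 6, 7}}

/-- four alternate faces of the octahedron with opposite pairs `01, 23, 45` -/
def fourFaces : Finset (Finset (Fin 9)) := {{0, 2, 4}, {0, 3, 5}, {1, 2, 5}, {1, 3, 4}}

/-- the twelve 4-subsets of the octahedron that meet all three opposite pairs -/
def twelveQuads : Finset (Finset (Fin 9)) :=
  powersetCard 4 {0, 1, 2, 3, 4, 5} \ {{0, 1, 2, 3}, {0, 1, 4, 5}, {2, 3, 4, 5}}

/-- the exceptional family on nine labelled vertices -/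
def Exceptional (E : Finset (Finset V)) : Prop :=
  ∃ c : Fin 9 ↪ V, (∀ s ∈ threeEdges, s.map c ∈ E) ∧
    (∀ e ∈ E, (∃ s ∈ threeEdges ∪ twelveQuads ∪ fourFaces, e = s.map c) ∨
      ∃ t ∈ fourFaces, ∃ r, r ∉ univ.map c ∧ e = insert r (t.map c)) ∧
    ∀ t ∈ fourFaces, ∃ r, r ∉ univ.map c ∧ ∀ e ∈ E, r ∈ e → e = insert r (t.map c)

end Pool.Agent.Lib.MP_d09955_co
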