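import Pool.Agent.Lib.MP_d09955_co.Defs

set_option autoImplicit false
set_option linter.unusedSectionVars false
set_option synthInstance.maxSize 4000

namespace Pool.Agent.Lib.MP_d09955_co

open Finset

variable {V : Type} [Fintype V] [DecidableEq V]

def NoPair (E : Finset (Finset V)) : Prop :=
  ∀ x y : V, ∃ z, z ≠ x ∧ z ≠ y ∧ ¬ Adj E z x ∧ ¬ Adj E z y

lemma sub_one {α : Type} [DecidableEq α] {s : Finset α} (h : s.card ≤ 1) (d : α) :
    ∃ a, (a ∈ s ∨ a = d) ∧ ∀ v ∈ s, v = a := by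
  rcases s.eq_empty_or_nonempty with rfl | ⟨a, ha⟩
  · exact ⟨d, Or.inr rfl, by simp⟩
  · exact ⟨a, Or.inl ha, fun v hv => card_le_one.1 h v hv a ha⟩

lemma sub_two {α : Type} [DecidableEq α] {s : Finset α} (h : s.card ≤ 2) (d : α) :
    ∃ a b, (a ∈ s ∨ a = d) ∧ (b ∈ s ∨ b = d) ∧ ∀ v ∈ s, v = a ∨ v = b := by
  rcases s.eq_empty_or_nonempty with rfl | ⟨a, ha⟩
  · exact ⟨d, d, Or.inr rfl, Or.inr rfl, by simp⟩
  · obtain ⟨b, hb, hb'⟩ := sub_one (s := s.erase a) (by rw [card_erase_of_mem ha]; omega) d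
    refine ⟨a, b, Or.inl ha, hb.imp_left mem_of_mem_erase, fun v hv => ?_⟩
    by_cases e : v = a
    · exact Or.inl e
    · exact Or.inr (hb' v (mem_erase.2 ⟨e, hv⟩))

lemma sub_three {α : Type} [DecidableEq α] {s : Finset α} (h : s.card ≤ 3) (d : α) :
    ∃ a b c, (a ∈ s ∨ a = d) ∧ (b ∈ s ∨ b = d) ∧ (c ∈ s ∨ c = d) ∧
      ∀ v ∈ s, v = a ∨ v = b ∨ v = c := by
  rcases s.eq_empty_or_nonempty with rfl | ⟨a, ha⟩
  · exact ⟨d, d, d, Or.inr rfl, Or.inr rfl, Or.inr rfl, by simp⟩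
  · obtain ⟨b, c, hb, hc, hb'⟩ := sub_two (s := s.erase a) (by rw [card_erase_of_mem ha]; omega) d
    refine ⟨a, b, c, Or.inl ha, hb.imp_left mem_of_mem_erase, hc.imp_left mem_of_mem_erase,
      fun v hv => ?_⟩
    by_cases e : v = a
    · exact Or.inl e
    · exact Or.inr (hb' v (mem_erase.2 ⟨e, hv⟩))

lemma sub_four {α : Type} [DecidableEq α] {s : Finset α} (h : s.card ≤ 4) (d : α) :
    ∃ a b c e, (a ∈ s ∨ a = d) ∧ (b ∈ s ∨ b = d) ∧ (c ∈ s ∨ c = d) ∧ (e ∈ s ∨ e = d) ∧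
      ∀ v ∈ s, v = a ∨ v = b ∨ v = c ∨ v = e := by
  rcases s.eq_empty_or_nonempty with rfl | ⟨a, ha⟩
  · exact ⟨d, d, d, d, Or.inr rfl, Or.inr rfl, Or.inr rfl, Or.inr rfl, by simp⟩
  · obtain ⟨b, c, e, hb, hc, he, hb'⟩ :=
      sub_three (s := s.erase a) (by rw [card_erase_of_mem ha]; omega) d
    refine ⟨a, b, c, e, Or.inl ha, hb.imp_left mem_of_mem_erase, hc.imp_left mem_of_mem_erase,
      he.imp_left mem_of_mem_erase, fun v hv => ?_⟩
    by_cases e : v = a
    · exact Or.inl e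
    · exact Or.inr (hb' v (mem_erase.2 ⟨e, hv⟩))

lemma noPair_of_domNum {E : Finset (Finset V)} (h : domNum E = 3) : NoPair E := by
  intro x y
  by_contra hn
  push Not at hn
  have : domNum E ≤ ({x, y} : Finset V).card := by
    refine Nat.sInf_le ⟨{x, y}, fun v hv => ?_, rfl⟩
    simp only [mem_insert, mem_singleton, not_or] at hv
    by_cases h1 : Adj E v x
    · exact ⟨x, by simp, h1⟩
    · exact ⟨y, by simp, hn v hv.1 hv.2 h1⟩
  have h2 : ({x, y} : Finset V).card ≤ 2 := card_le_two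
  omega

lemma domNum_eq {E : Finset (Finset V)} (h : NoPair E) {D : Finset V} (hD : Dominating E D)
    (h3 : D.card = 3) : domNum E = 3 := by
  have hne : {n | ∃ D : Finset V, Dominating E D ∧ D.card = n}.Nonempty := ⟨3, D, hD, h3⟩
  refine le_antisymm (Nat.sInf_le ⟨D, hD, h3⟩) ?_
  obtain ⟨D', hD', e⟩ := Nat.sInf_mem hne
  unfold domNum
  rw [← e]
  by_contra hlt
  obtain ⟨d, -⟩ : D.Nonempty := card_pos.1 (by omega)
  obtain ⟨a, b, -, -, hab⟩ := sub_two (s := D') (by omega) d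
  obtain ⟨z, z1, z2, z3, z4⟩ := h a b
  obtain ⟨u, hu, hu'⟩ := hD' z fun hz => by rcases hab z hz with h | h <;> contradiction
  rcases hab u hu with rfl | rfl <;> contradiction

lemma outside_unique {e C : Finset V} (h4 : e.card ≤ 4) (h3 : 3 ≤ (e ∩ C).card) {p q : V}
    (hp : p ∈ e) (hq : q ∈ e) (hp' : p ∉ C) (hq' : q ∉ C) : p = q := by
  have h1 := card_sdiff_add_card_inter e C
  exact card_le_one.1 (show (e \ C).card ≤ 1 by omega) p (mem_sdiff.2 ⟨hp, hp'⟩) q
    (mem_sdiff.2 ⟨hq, hq'⟩)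

lemma domNum_of_core {E : Finset (Finset V)} [Nonempty V] (h4 : ∀ e ∈ E, e.card ≤ 4)
    (hint : ∀ e ∈ E, ∀ f ∈ E, (e ∩ f).Nonempty) (hcov : ∀ v, ∃ e ∈ E, v ∈ e) {C : Finset V}
    (hC : IsCore E C) : domNum E = 3 := by
  have rep : ∀ x : V, ∃ x' ∈ C, ∀ p, p ∉ C → ¬ Adj E p x' → p ≠ x ∧ ¬ Adj E p x := by
    intro x
    by_cases hx : x ∈ C
    · exact ⟨x, hx, fun p hp h => ⟨fun e => hp (e ▸ hx), h⟩⟩
    · obtain ⟨e, he, hxe⟩ := hcov x
      obtain ⟨x', hx'⟩ : (e ∩ C).Nonempty := card_pos.1 (by have := hC.1 e he; omega)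
      rw [mem_inter] at hx'
      refine ⟨x', hx'.2, fun p hp h => ⟨?_, ?_⟩⟩
      · rintro rfl
        exact h ⟨fun e => hp (e ▸ hx'.2), e, he, hxe, hx'.1⟩
      · rintro ⟨hne, f, hf, a, b⟩
        exact hne (outside_unique (h4 f hf) (hC.1 f hf) a b hp hx)
  have hnp : NoPair E := by
    intro x y
    obtain ⟨x', hx, hx'⟩ := rep x
    obtain ⟨y', hy, hy'⟩ := rep y
    obtain ⟨p, hp, a, b⟩ := hC.2 x' hx y' hy
    exact ⟨p, (hx' p hp a).1, (hy' p hp b).1, (hx' p hp a).2, (hy' p hp b).2⟩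
  obtain ⟨x0, hx0, -⟩ := rep (Classical.arbitrary V)
  obtain ⟨p, hp, -⟩ := hC.2 x0 hx0 x0 hx0
  obtain ⟨e, he, hpe⟩ := hcov p
  have c3 : ∀ f ∈ E, p ∈ f → (f ∩ C).card = 3 := by
    intro f hf hpf
    have h1 := card_sdiff_add_card_inter f C
    have h2 : 0 < (f \ C).card := card_pos.2 ⟨p, mem_sdiff.2 ⟨hpf, hp⟩⟩
    have := hC.1 f hf
    have := h4 f hf
    omega
  refine domNum_eq hnp (D := e ∩ C) (fun v hv => ?_) (c3 e he hpe)
  have meet : ∀ f ∈ E, v ∈ f → p ∉ f → ∃ u ∈ e ∩ C, Adj E v u := by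
    intro f hf hvf hpf
    obtain ⟨u, hu⟩ := hint e he f hf
    rw [mem_inter] at hu
    have huC : u ∈ C := by
      by_contra h
      exact hpf (outside_unique (h4 e he) (hC.1 e he) hu.1 hpe h hp ▸ hu.2)
    have : u ∈ e ∩ C := mem_inter.2 ⟨hu.1, huC⟩
    exact ⟨u, this, fun h => hv (h ▸ this), f, hf, hvf, hu.2⟩
  obtain ⟨f, hf, hvf⟩ := hcov v
  by_cases hpf : p ∈ f
  · by_cases hvp : v = p
    · obtain ⟨u, hu⟩ : (e ∩ C).Nonempty := card_pos.1 (by have := hC.1 e he; omega)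
      exact ⟨u, hu, fun h => hv (h ▸ hu), e, he, hvp ▸ hpe, (mem_inter.1 hu).1⟩
    · have hvC : v ∈ C := by
        by_contra h
        exact hvp (outside_unique (h4 f hf) (hC.1 f hf) hvf hpf h hp)
      have hv' : v ∈ f ∩ C := mem_inter.2 ⟨hvf, hvC⟩
      obtain ⟨a, b, -, hab⟩ := card_eq_two.1
        (show ((f ∩ C).erase v).card = 2 by rw [card_erase_of_mem hv', c3 f hf hpf])
      have ha : a ∈ (f ∩ C).erase v := by rw [hab]; simp
      have hb : b ∈ (f ∩ C).erase v := by rw [hab]; simp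
      simp only [mem_erase, mem_inter] at ha hb
      obtain ⟨q, hq, qa, qb⟩ := hC.2 a ha.2.2 b hb.2.2
      have hqp : q ≠ p := by
        rintro rfl
        exact qa ⟨fun h => hq (h ▸ ha.2.2), f, hf, hpf, ha.2.1⟩
      obtain ⟨g, hg, hqg⟩ := hcov q
      have hpg : p ∉ g := fun h => hqp (outside_unique (h4 g hg) (hC.1 g hg) hqg h hq hp)
      obtain ⟨w, hw⟩ := hint f hf g hg
      rw [mem_inter] at hw
      have hwC : w ∈ C := by
        by_contra h
        exact hpg (outside_unique (h4 f hf) (hC.1 f hf) hw.1 hpf h hp ▸ hw.2)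
      have hwv : w = v := by
        by_contra h
        have : w ∈ (f ∩ C).erase v := mem_erase.2 ⟨h, mem_inter.2 ⟨hw.1, hwC⟩⟩
        rw [hab, mem_insert, mem_singleton] at this
        rcases this with rfl | rfl
        · exact qa ⟨fun h => hq (h ▸ hwC), g, hg, hqg, hw.2⟩
        · exact qb ⟨fun h => hq (h ▸ hwC), g, hg, hqg, hw.2⟩
      exact meet g hg (hwv ▸ hw.2) hpg
  · exact meet f hf hvf hpf

lemma fin_a : ∀ s ∈ threeEdges ∪ twelveQuads ∪ fourFaces,
    (s ∩ ({0, 2, 4} : Finset (Fin 9))).Nonempty := by decide +kernel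

lemma fin_b : ∀ i j : Fin 9, (∀ t ∈ fourFaces, i ∈ t ∨ j ∈ t) → ∃ k : Fin 9, k ≠ i ∧ k ≠ j ∧
    ∀ s ∈ threeEdges ∪ twelveQuads ∪ fourFaces, k ∈ s → i ∉ s ∧ j ∉ s ∧ s ∉ fourFaces := by
  decide +kernel

lemma fin_c : ∀ j : Fin 9, ∃ t ∈ fourFaces, ∃ t' ∈ fourFaces, t ≠ t' ∧ j ∉ t ∧ j ∉ t' := by
  decide +kernel

lemma insert_map_inj {c : Fin 9 ↪ V} {r : V} (hr : r ∉ univ.map c) {t t' : Finset (Fin 9)}
    (h : insert r (t.map c) = insert r (t'.map c)) : t = t' := by
  have key : ∀ s : Finset (Fin 9), (insert r (s.map c)).erase r = s.map c := fun s =>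
    erase_insert fun h => hr (map_subset_map.2 (subset_univ s) h)
  have := congrArg (fun s => s.erase r) h
  simp only [key] at this
  exact map_injective c this

lemma domNum_of_exceptional {E : Finset (Finset V)} (hcov : ∀ v, ∃ e ∈ E, v ∈ e)
    (h : Exceptional E) : domNum E = 3 := by
  obtain ⟨c, -, h2, h3⟩ := h
  have : Nonempty V := ⟨c 0⟩
  choose! r hr hr' using h3
  have rinj : ∀ t ∈ fourFaces, ∀ t' ∈ fourFaces, r t = r t' → t = t' := by
    intro t ht t' ht' e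
    obtain ⟨f, hf, hf'⟩ := hcov (r t)
    have a := hr' t ht f hf hf'
    have b := hr' t' ht' f hf (e ▸ hf')
    rw [← e, a] at b
    exact insert_map_inj (hr t ht) b
  have hnp : NoPair E := by
    intro x y
    by_contra hn
    push Not at hn
    have key : ∀ t ∈ fourFaces, x = r t ∨ y = r t ∨ x ∈ t.map c ∨ y ∈ t.map c := by
      intro t ht
      by_contra hh
      push Not at hh
      have adj : ∀ v, v ∉ t.map c → ¬ Adj E (r t) v := by
        rintro v hv ⟨hne, f, hf, a, b⟩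
        rw [hr' t ht f hf a, mem_insert] at b
        exact b.elim (fun e => hne e.symm) hv
      exact adj y hh.2.2.2 (hn (r t) hh.1.symm hh.2.1.symm (adj x hh.2.2.1))
    have notr : ∀ i, ∀ t ∈ fourFaces, c i ≠ r t := fun i t ht e =>
      hr t ht (e ▸ mem_map_of_mem c (mem_univ i))
    have notm : ∀ v, v ∉ univ.map c → ∀ t : Finset (Fin 9), v ∉ t.map c := fun v hv t h =>
      hv (map_subset_map.2 (subset_univ t) h)
    by_cases hx : x ∈ univ.map c <;> by_cases hy : y ∈ univ.map c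
    · obtain ⟨i, -, rfl⟩ := mem_map.1 hx
      obtain ⟨j, -, rfl⟩ := mem_map.1 hy
      obtain ⟨k, k1, k2, k3⟩ := fin_b i j fun t ht => by
        rcases key t ht with h | h | h | h
        · exact absurd h (notr i t ht)
        · exact absurd h (notr j t ht)
        · exact Or.inl ((mem_map' c).1 h)
        · exact Or.inr ((mem_map' c).1 h)
      have adj : ∀ l, (∀ s ∈ threeEdges ∪ twelveQuads ∪ fourFaces, k ∈ s → l ∉ s) →
          ¬ Adj E (c k) (c l) := by
        rintro l hl ⟨-, f, hf, a, b⟩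
        rcases h2 f hf with ⟨s, hs, rfl⟩ | ⟨t, ht, q, hq, rfl⟩
        · exact hl s hs ((mem_map' c).1 a) ((mem_map' c).1 b)
        · rcases mem_insert.1 a with a | a
          · exact hq (a ▸ mem_map_of_mem c (mem_univ k))
          · exact (k3 t (mem_union_right _ ht) ((mem_map' c).1 a)).2.2 ht
      exact adj j (fun s hs hk => (k3 s hs hk).2.1) (hn (c k) (fun e => k1 (c.injective e))
        (fun e => k2 (c.injective e)) (adj i fun s hs hk => (k3 s hs hk).1))
    · obtain ⟨i, -, rfl⟩ := mem_map.1 hx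
      obtain ⟨t, ht, t', ht', hne, a, b⟩ := fin_c i
      have k : ∀ s ∈ fourFaces, i ∉ s → y = r s := fun s hs hi => by
        rcases key s hs with h | h | h | h
        · exact absurd h (notr i s hs)
        · exact h
        · exact absurd ((mem_map' c).1 h) hi
        · exact absurd h (notm y hy s)
      exact hne (rinj t ht t' ht' ((k t ht a).symm.trans (k t' ht' b)))
    · obtain ⟨i, -, rfl⟩ := mem_map.1 hy
      obtain ⟨t, ht, t', ht', hne, a, b⟩ := fin_c i
      have k : ∀ s ∈ fourFaces, i ∉ s → x = r s := fun s hs hi => by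
        rcases key s hs with h | h | h | h
        · exact h
        · exact absurd h (notr i s hs)
        · exact absurd h (notm x hx s)
        · exact absurd ((mem_map' c).1 h) hi
      exact hne (rinj t ht t' ht' ((k t ht a).symm.trans (k t' ht' b)))
    · have k : ∀ s ∈ fourFaces, x = r s ∨ y = r s := fun s hs => by
        rcases key s hs with h | h | h | h
        · exact Or.inl h
        · exact Or.inr h
        · exact absurd h (notm x hx s)
        · exact absurd h (notm y hy s)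
      have m1 : ({0, 2, 4} : Finset (Fin 9)) ∈ fourFaces := by decide
      have m2 : ({0, 3, 5} : Finset (Fin 9)) ∈ fourFaces := by decide
      have m3 : ({1, 2, 5} : Finset (Fin 9)) ∈ fourFaces := by decide
      have n12 := mt (rinj _ m1 _ m2) (by decide)
      have n13 := mt (rinj _ m1 _ m3) (by decide)
      have n23 := mt (rinj _ m2 _ m3) (by decide)
      rcases k _ m1 with a | a <;> rcases k _ m2 with b | b <;> rcases k _ m3 with d | d <;>
        first
          | exact n12 (a.symm.trans b)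
          | exact n13 (a.symm.trans d)
          | exact n23 (b.symm.trans d)
  refine domNum_eq hnp (D := ({0, 2, 4} : Finset (Fin 9)).map c) (fun v hv => ?_)
    (by rw [card_map]; rfl)
  obtain ⟨f, hf, hvf⟩ := hcov v
  have : ∃ s ∈ threeEdges ∪ twelveQuads ∪ fourFaces, s.map c ⊆ f := by
    rcases h2 f hf with ⟨s, hs, rfl⟩ | ⟨t, ht, q, -, rfl⟩
    · exact ⟨s, hs, Subset.refl _⟩
    · exact ⟨t, mem_union_right _ ht, subset_insert _ _⟩
  obtain ⟨s, hs, hsf⟩ := this
  obtain ⟨i, hi⟩ := fin_a s hs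
  rw [mem_inter] at hi
  have hm := mem_map_of_mem c hi.2
  exact ⟨c i, hm, fun e => hv (e ▸ hm), f, hf, hvf, hsf (mem_map_of_mem c hi.1)⟩

end Pool.Agent.Lib.MP_d09955_co
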