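import Pool.Agent.Lib.MP_d09955_co.Cover

set_option autoImplicit false
set_option linter.unusedSectionVars false
set_option synthInstance.maxSize 4000

namespace Pool.Agent.Lib.MP_d09955_co

open Finset

variable {V : Type} [Fintype V] [DecidableEq V]

lemma fin_l1 : ∀ s : Finset (Fin 9), (∀ e ∈ threeEdges, ∃ i ∈ e, i ∈ s) →
    (8 ∈ s → 4 ∉ s ∧ 5 ∉ s) → (7 ∈ s → 2 ∉ s ∧ 3 ∉ s) → (6 ∈ s → 0 ∉ s ∧ 1 ∉ s) →
    (fourFaces.filter fun t => Disjoint s t).card + s.card ≤ 4 →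
    (s ∈ threeEdges ∪ twelveQuads ∧ s.card = 4) ∨ (s ∈ fourFaces ∧ s.card = 3) ∨
      ∃ i ∈ s, ∃ j ∈ s, i ∈ ({0, 1} : Finset (Fin 9)) ∧ j ∈ ({2, 3} : Finset (Fin 9)) ∧
        ∀ t ∈ fourFaces, i ∉ t → j ∉ t → Disjoint s t := by
  decide +kernel

lemma fin_l2 : ∀ k : Fin 9, k ≠ 2 → k ≠ 3 →
    (∀ s ∈ threeEdges ∪ fourFaces, k ∈ s → 2 ∉ s ∧ 3 ∉ s) → k = 7 := by decide +kernel

lemma fin_l3 : ∀ k : Fin 9, k ≠ 0 → k ≠ 1 →
    (∀ s ∈ threeEdges ∪ fourFaces, k ∈ s → 0 ∉ s ∧ 1 ∉ s) → k = 6 := by decide +kernel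

lemma fin_l4 : ∀ i ∈ ({0, 1} : Finset (Fin 9)), ∀ j ∈ ({2, 3} : Finset (Fin 9)), ∀ k : Fin 9,
    k ≠ i → k ≠ j → ¬ ∀ s ∈ threeEdges ∪ fourFaces, k ∈ s → i ∉ s ∧ j ∉ s := by decide +kernel

lemma fin_l5 : ∀ t ∈ fourFaces, (2 ∈ t ∨ 3 ∈ t) ∧ (0 ∈ t ∨ 1 ∈ t) ∧
    ∃ i ∈ ({0, 1} : Finset (Fin 9)), ∃ j ∈ ({2, 3} : Finset (Fin 9)),
      ∀ t' ∈ fourFaces, i ∉ t' → j ∉ t' → t' = t := by decide +kernel

namespace Setup

variable {E : Finset (Finset V)} (S : Setup E)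

lemma exc_of_facts (c : Fin 9 ↪ V) (h3 : ∀ s ∈ threeEdges, s.map c ∈ E)
    (F2 : ∀ t ∈ fourFaces, ∃ f ∈ S.E', S.pv f ∉ univ.map c ∧ f = insert (S.pv f) (t.map c))
    (F3 : ∀ f ∈ S.E', (∃ s ∈ threeEdges, f = s.map c) ∨
      ∃ t ∈ fourFaces, S.pv f ∉ univ.map c ∧ f = insert (S.pv f) (t.map c))
    (h8 : ¬ Adj E (c 8) (c 4) ∧ ¬ Adj E (c 8) (c 5)) : Exceptional E := by
  have adjc : ∀ k i : Fin 9, k ≠ i → ∀ s ∈ threeEdges ∪ fourFaces, k ∈ s → i ∈ s →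
      Adj E (c k) (c i) := by
    intro k i hne s hs hk hi
    have hne' : c k ≠ c i := fun e => hne (c.injective e)
    rcases mem_union.1 hs with hs | hs
    · exact adj (h3 s hs) (mem_map_of_mem c hk) (mem_map_of_mem c hi) hne'
    · obtain ⟨f, hf, -, e⟩ := F2 s hs
      exact adj (S.sub f hf) (e ▸ mem_insert_of_mem (mem_map_of_mem c hk))
        (e ▸ mem_insert_of_mem (mem_map_of_mem c hi)) hne'
  have witc : ∀ i j : Fin 9, (∃ k, k ≠ i ∧ k ≠ j ∧ ¬ Adj E (c k) (c i) ∧ ¬ Adj E (c k) (c j) ∧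
      ∀ s ∈ threeEdges ∪ fourFaces, k ∈ s → i ∉ s ∧ j ∉ s) ∨
      ∃ t ∈ fourFaces, i ∉ t ∧ j ∉ t ∧ ∃ r, r ∉ univ.map c ∧ insert r (t.map c) ∈ E ∧
        ¬ Adj E r (c i) ∧ ¬ Adj E r (c j) := by
    intro i j
    obtain ⟨z, f, hf, hz, z1, z2, z3, z4⟩ := S.wit (c i) (c j)
    by_cases hzc : z ∈ univ.map c
    · obtain ⟨k, -, rfl⟩ := mem_map.1 hzc
      have a : k ≠ i := fun e => z1 (e ▸ rfl)
      have b : k ≠ j := fun e => z2 (e ▸ rfl)
      exact Or.inl ⟨k, a, b, z3, z4, fun s hs hk =>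
        ⟨fun h => z3 (adjc k i a s hs hk h), fun h => z4 (adjc k j b s hs hk h)⟩⟩
    · right
      rcases F3 f hf with ⟨s, -, rfl⟩ | ⟨t, ht, a, b⟩
      · exact absurd (map_subset_map.2 (subset_univ s) hz) hzc
      · have hz' : z = S.pv f := by
          rw [b, mem_insert] at hz
          exact hz.resolve_right fun h => hzc (map_subset_map.2 (subset_univ t) h)
        refine ⟨t, ht, fun h => z3 (adj (S.sub f hf) hz ?_ z1),
          fun h => z4 (adj (S.sub f hf) hz ?_ z2), z, hzc, ?_, z3, z4⟩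
        · rw [b]; exact mem_insert_of_mem (mem_map_of_mem c h)
        · rw [b]; exact mem_insert_of_mem (mem_map_of_mem c h)
        · rw [hz', ← b]; exact S.sub f hf
  have h7 : ¬ Adj E (c 7) (c 2) ∧ ¬ Adj E (c 7) (c 3) := by
    rcases witc 2 3 with ⟨k, a, b, d, e, h⟩ | ⟨t, ht, a, b, -⟩
    · rw [fin_l2 k a b h] at d e; exact ⟨d, e⟩
    · exact absurd (fin_l5 t ht).1 (not_or.2 ⟨a, b⟩)
  have h6 : ¬ Adj E (c 6) (c 0) ∧ ¬ Adj E (c 6) (c 1) := by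
    rcases witc 0 1 with ⟨k, a, b, d, e, h⟩ | ⟨t, ht, a, b, -⟩
    · rw [fin_l3 k a b h] at d e; exact ⟨d, e⟩
    · exact absurd (fin_l5 t ht).2.1 (not_or.2 ⟨a, b⟩)
  have W : ∀ i ∈ ({0, 1} : Finset (Fin 9)), ∀ j ∈ ({2, 3} : Finset (Fin 9)),
      ∃ t ∈ fourFaces, i ∉ t ∧ j ∉ t ∧ ∃ r, r ∉ univ.map c ∧ insert r (t.map c) ∈ E ∧
        ¬ Adj E r (c i) ∧ ¬ Adj E r (c j) := fun i hi j hj =>
    (witc i j).resolve_left (by
      rintro ⟨k, a, b, -, -, h⟩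
      exact fin_l4 i hi j hj k a b h)
  choose! ff hf1 hf2 hf3 using F2
  have cls : ∀ g ∈ E, (∃ s ∈ threeEdges ∪ twelveQuads ∪ fourFaces, g = s.map c) ∨
      ∃ t ∈ fourFaces, ∃ r, r ∉ univ.map c ∧ g = insert r (t.map c) := by
    intro g hg
    set s : Finset (Fin 9) := univ.filter fun i => c i ∈ g with hs
    have ms : ∀ i, i ∈ s ↔ c i ∈ g := fun i => by simp [hs]
    have hsm : s.map c = g ∩ univ.map c := by
      ext v
      simp only [mem_map, ms, mem_inter, mem_univ, true_and]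
      constructor
      · rintro ⟨i, a, rfl⟩; exact ⟨a, i, rfl⟩
      · rintro ⟨a, i, rfl⟩; exact ⟨i, a, rfl⟩
    have hcard : (g \ univ.map c).card + s.card = g.card := by
      rw [← card_map c (s := s), hsm, card_sdiff_add_card_inter]
    have hg4 := S.h4 g hg
    have nadj : ∀ k i : Fin 9, k ≠ i → ¬ Adj E (c k) (c i) → k ∈ s → i ∉ s := fun k i hne h a b =>
      h (adj hg ((ms k).1 a) ((ms i).1 b) fun e => hne (c.injective e))
    have outm : ∀ t : Finset (Fin 9), ∀ r, insert r (t.map c) ∈ E → Disjoint s t → r ∈ g := by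
      intro t r h hd
      obtain ⟨v, hv⟩ := S.hint g hg _ h
      rw [mem_inter, mem_insert] at hv
      rcases hv with ⟨a, rfl | b⟩
      · exact a
      · obtain ⟨i, hi, rfl⟩ := mem_map.1 b
        exact absurd hi (disjoint_left.1 hd ((ms i).2 a))
    have hmiss : (fourFaces.filter fun t => Disjoint s t).card ≤ (g \ univ.map c).card := by
      refine card_le_card_of_injOn (fun t => S.pv (ff t)) (fun t ht => ?_) fun t ht t' ht' e => ?_
      · rw [mem_coe, mem_filter] at ht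
        exact mem_coe.2 (mem_sdiff.2 ⟨outm t _ (hf3 t ht.1 ▸ S.sub _ (hf1 t ht.1)) ht.2,
          hf2 t ht.1⟩)
      · rw [mem_coe, mem_filter] at ht ht'
        simp only at e
        have e1 : ff t' = ff t := S.priv _ (hf1 t ht.1) _ (hf1 t' ht'.1)
          (e ▸ S.pv_mem _ (hf1 t' ht'.1))
        have a := hf3 t ht.1
        have b := hf3 t' ht'.1
        rw [e1] at b
        exact insert_map_inj (hf2 t ht.1) (a.symm.trans b)
    have hsub : s.map c ⊆ g := hsm ▸ inter_subset_left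
    rcases fin_l1 s (fun e he => by
        obtain ⟨v, hv⟩ := S.hint g hg _ (h3 e he)
        rw [mem_inter] at hv
        obtain ⟨i, hi, rfl⟩ := mem_map.1 hv.2
        exact ⟨i, hi, (ms i).2 hv.1⟩)
      (fun h => ⟨nadj 8 4 (by decide) h8.1 h, nadj 8 5 (by decide) h8.2 h⟩)
      (fun h => ⟨nadj 7 2 (by decide) h7.1 h, nadj 7 3 (by decide) h7.2 h⟩)
      (fun h => ⟨nadj 6 0 (by decide) h6.1 h, nadj 6 1 (by decide) h6.2 h⟩)
      (by omega) with ⟨a, b⟩ | ⟨a, b⟩ | ⟨i, hi, j, hj, a, b, d⟩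
    · exact Or.inl ⟨s, mem_union_left _ a,
        (eq_of_subset_of_card_le hsub (by rw [card_map]; omega)).symm⟩
    · by_cases h4 : g.card ≤ 3
      · exact Or.inl ⟨s, mem_union_right _ a,
          (eq_of_subset_of_card_le hsub (by rw [card_map]; omega)).symm⟩
      · obtain ⟨r, hr⟩ := card_eq_one.1 (show (g \ univ.map c).card = 1 by omega)
        have hr' : r ∈ g \ univ.map c := by rw [hr]; simp
        refine Or.inr ⟨s, a, r, (mem_sdiff.1 hr').2, ?_⟩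
        rw [hsm, insert_eq, ← hr, sdiff_union_inter]
    · exfalso
      obtain ⟨t, ht, p1, p2, r, hr, q1, q2, -⟩ := W i a j b
      exact q2 (adj hg (outm t r q1 (d t ht p1 p2)) ((ms i).1 hi)
        fun e => hr (e ▸ mem_map_of_mem c (mem_univ i)))
  refine ⟨c, h3, cls, fun t ht => ?_⟩
  obtain ⟨-, -, i, hi, j, hj, huniq⟩ := fin_l5 t ht
  obtain ⟨t', -, -, -, r, hr, -, q2, q3⟩ := W i hi j hj
  refine ⟨r, hr, fun e he hre => ?_⟩
  have rne : ∀ k, r ≠ c k := fun k e => hr (e ▸ mem_map_of_mem c (mem_univ k))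
  rcases cls e he with ⟨s, -, rfl⟩ | ⟨t'', ht'', r', -, rfl⟩
  · exact absurd (map_subset_map.2 (subset_univ s) hre) hr
  · have e1 : r = r' := (mem_insert.1 hre).resolve_right fun h =>
      hr (map_subset_map.2 (subset_univ _) h)
    subst e1
    rw [huniq t'' ht''
      (fun h => q2 (adj he hre (mem_insert_of_mem (mem_map_of_mem c h)) (rne i)))
      fun h => q3 (adj he hre (mem_insert_of_mem (mem_map_of_mem c h)) (rne j))]

end Setup

end Pool.Agent.Lib.MP_d09955_co
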