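import Pool.Agent.Lib.MP_d09955_co.Exc

set_option autoImplicit false
set_option linter.unusedSectionVars false
set_option synthInstance.maxSize 4000

namespace Pool.Agent.Lib.MP_d09955_co

open Finset

variable {V : Type} [Fintype V] [DecidableEq V]

namespace Setup

variable {E : Finset (Finset V)} (S : Setup E)

/-- the situation with an edge `{a, b, p, q}` -/
structure Two (g ep eq : Finset V) (a b z u1 u2 v1 v2 : V) : Prop where
  hg : g ∈ E
  hp : ep ∈ S.E'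
  hq : eq ∈ S.E'
  eg : g = {a, b, S.pv eq, S.pv ep}
  eep : ep = {u1, u2, S.pv ep, z}
  eeq : eq = {v1, v2, S.pv eq, z}
  nd : [u1, u2, v1, v2, a, b, S.pv eq, S.pv ep, z].Nodup
  inC : u1 ∈ S.C ∧ u2 ∈ S.C ∧ v1 ∈ S.C ∧ v2 ∈ S.C ∧ a ∈ S.C ∧ b ∈ S.C ∧ z ∈ S.C
  za : ¬ Adj E z a
  zb : ¬ Adj E z b
  oth : ∀ f ∈ S.E', f ≠ ep → f ≠ eq → a ∈ f ∨ b ∈ f

lemma Two.swap {g ep eq : Finset V} {a b z u1 u2 v1 v2 : V}
    (h : S.Two g ep eq a b z u1 u2 v1 v2) : S.Two g ep eq b a z u1 u2 v1 v2 where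
  hg := h.hg
  hp := h.hp
  hq := h.hq
  eg := by rw [insert_comm]; exact h.eg
  eep := h.eep
  eeq := h.eeq
  nd := by
    have := h.nd
    simp only [List.nodup_cons, List.mem_cons, List.not_mem_nil, not_or, List.nodup_nil] at this ⊢
    grind
  inC := by have := h.inC; tauto
  za := h.zb
  zb := h.za
  oth f a b c := (h.oth f a b c).symm

lemma face_eq {f : Finset V} (hf : f ∈ S.E') {x y w : V} (hx : x ∈ f) (hy : y ∈ f) (hw : w ∈ f)
    (cx : x ∈ S.C) (cy : y ∈ S.C) (cw : w ∈ S.C) (h1 : x ≠ y) (h2 : x ≠ w) (h3 : y ≠ w) :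
    f = insert (S.pv f) {x, y, w} := by
  have : ({x, y, w} : Finset V) = f.erase (S.pv f) := by
    apply eq_of_subset_of_card_le
    · intro v hv
      simp only [mem_insert, mem_singleton] at hv
      rcases hv with rfl | rfl | rfl
      · exact mem_erase.2 ⟨S.ne_pv hf cx, hx⟩
      · exact mem_erase.2 ⟨S.ne_pv hf cy, hy⟩
      · exact mem_erase.2 ⟨S.ne_pv hf cw, hw⟩
    · rw [S.card_erase hf, card_eq_three.2 ⟨_, _, _, h1, h2, h3, rfl⟩]
  rw [this, insert_erase (S.pv_mem f hf)]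

lemma Two.other {g ep eq : Finset V} {a b z u1 u2 v1 v2 : V}
    (h : S.Two g ep eq a b z u1 u2 v1 v2) {f : Finset V} (hf : f ∈ S.E') (h1 : f ≠ ep)
    (h2 : f ≠ eq) : ∃ x y w, (x = u1 ∨ x = u2) ∧ (y = v1 ∨ y = v2) ∧ (w = a ∨ w = b) ∧
      f = insert (S.pv f) {x, y, w} := by
  have nd := h.nd
  simp only [List.nodup_cons, List.mem_cons, List.not_mem_nil, not_or, List.nodup_nil] at nd
  obtain ⟨c1, c2, c3, c4, c5, c6, c7⟩ := h.inC
  have hz : z ∉ f := fun hz => (h.oth f hf h1 h2).elim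
    (fun ha => h.za (adj (S.sub f hf) hz ha (by grind)))
    (fun hb => h.zb (adj (S.sub f hf) hz hb (by grind)))
  obtain ⟨x, xC, x1, x2⟩ := S.meet hf h.hp h1
  obtain ⟨y, yC, y1, y2⟩ := S.meet hf h.hq h2
  have xp := S.ne_pv h.hp xC
  have yq := S.ne_pv h.hq yC
  rw [h.eep] at x2
  rw [h.eeq] at y2
  simp only [mem_insert, mem_singleton] at x2 y2
  have hx : x = u1 ∨ x = u2 := by grind
  have hy : y = v1 ∨ y = v2 := by grind
  rcases h.oth f hf h1 h2 with ha | ha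
  · exact ⟨x, y, a, hx, hy, Or.inl rfl,
      S.face_eq hf x1 y1 ha xC yC c5 (by grind) (by grind) (by grind)⟩
  · exact ⟨x, y, b, hx, hy, Or.inr rfl,
      S.face_eq hf x1 y1 ha xC yC c6 (by grind) (by grind) (by grind)⟩

/-- `{x, y, w}` is the triple of an edge of the cover -/
def Face (x y w : V) : Prop := ∃ f ∈ S.E', f = insert (S.pv f) {x, y, w}

lemma Face.meet {x y w x' y' w' : V} (h : S.Face x y w) (h' : S.Face x' y' w')
    (cx : x ∈ S.C) :
    (x = x' ∨ x = y' ∨ x = w') ∨ (y = x' ∨ y = y' ∨ y = w') ∨ (w = x' ∨ w = y' ∨ w = w') := by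
  obtain ⟨f, hf, e⟩ := h
  obtain ⟨f', hf', e'⟩ := h'
  by_cases hh : f = f'
  · subst hh
    have : x ∈ insert (S.pv f) ({x', y', w'} : Finset V) := by rw [← e', e]; simp
    have := S.ne_pv hf cx
    grind
  · obtain ⟨v, vC, a, b⟩ := S.meet hf hf' hh
    have := S.ne_pv hf vC
    have := S.ne_pv hf' vC
    rw [e] at a
    rw [e'] at b
    simp only [mem_insert, mem_singleton] at a b
    clear e e'
    rcases a with rfl | rfl | rfl | rfl
    · contradiction
    all_goals tauto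

lemma Two.avoid {g ep eq : Finset V} {a b z u1 u2 v1 v2 : V}
    (h : S.Two g ep eq a b z u1 u2 v1 v2) {x y : V} (hx : x = u1 ∨ x = u2) (hy : y = v1 ∨ y = v2) :
    ∃ x' y' w, (x' = u1 ∨ x' = u2) ∧ (y' = v1 ∨ y' = v2) ∧ (w = a ∨ w = b) ∧ x' ≠ x ∧ y' ≠ y ∧
      S.Face x' y' w := by
  obtain ⟨f, hf, h1, h2⟩ := S.tau x y
  obtain ⟨x', y', w, p1, p2, p3, e⟩ := h.other S hf
    (fun e => h1 (by rw [e, h.eep]; grind)) (fun e => h2 (by rw [e, h.eeq]; grind))
  exact ⟨x', y', w, p1, p2, p3, fun hh => h1 (by rw [e]; grind), fun hh => h2 (by rw [e]; grind),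
    f, hf, e⟩

lemma Face.adj12 {x y w : V} (h : S.Face x y w) (hne : y ≠ x) : Adj E y x := by
  obtain ⟨f, hf, e⟩ := h
  exact adj (S.sub f hf) (by rw [e]; simp) (by rw [e]; simp) hne

lemma Two.exc_aux {g ep eq : Finset V} {a b z u1 u2 v1 v2 : V}
    (h : S.Two g ep eq a b z u1 u2 v1 v2) (f1 : S.Face u1 v1 a) : Exceptional E := by
  have nd := h.nd
  simp only [List.nodup_cons, List.mem_cons, List.not_mem_nil, not_or, List.nodup_nil] at nd
  obtain ⟨c1, c2, c3, c4, c5, c6, c7⟩ := h.inC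
  have f2 : S.Face u2 v2 a := by
    obtain ⟨x, y, w, p1, p2, p3, p4, p5, p6⟩ := h.avoid S (Or.inl rfl) (Or.inl rfl)
    have := f1.meet S p6 c1
    have e1 : x = u2 := by grind
    have e2 : y = v2 := by grind
    have e3 : w = a := by grind
    rwa [e1, e2, e3] at p6
  obtain ⟨k, hk, f3⟩ : ∃ k, (k = a ∨ k = b) ∧ S.Face u1 v2 k := by
    obtain ⟨x, y, w, p1, p2, p3, p4, p5, p6⟩ := h.avoid S (Or.inr rfl) (Or.inl rfl)
    have e1 : x = u1 := by grind
    have e2 : y = v2 := by grind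
    exact ⟨w, p3, by rwa [e1, e2] at p6⟩
  have f4 : S.Face u2 v1 k := by
    obtain ⟨x, y, w, p1, p2, p3, p4, p5, p6⟩ := h.avoid S (Or.inl rfl) (Or.inr rfl)
    have := f3.meet S p6 c1
    have e1 : x = u2 := by grind
    have e2 : y = v1 := by grind
    have e3 : w = k := by grind
    rwa [e1, e2, e3] at p6
  have hkb : k = b := by
    by_contra hkb
    have hka : k = a := by grind
    subst hka
    obtain ⟨w, f, hf, hw, w1, w2, w3, w4⟩ := S.wit u1 k
    have n1 : u1 ∉ f := fun hh => w3 (adj (S.sub f hf) hw hh w1)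
    have n2 : k ∉ f := fun hh => w4 (adj (S.sub f hf) hw hh w2)
    by_cases e : f = eq
    · subst e
      rw [h.eeq] at hw
      simp only [mem_insert, mem_singleton] at hw
      rcases hw with rfl | rfl | rfl | rfl
      · exact w3 (f1.adj12 S w1)
      · exact w3 (f3.adj12 S w1)
      · exact w4 (adj h.hg (by rw [h.eg]; simp) (by rw [h.eg]; simp) w2)
      · exact w3 (adj (S.sub _ h.hp) (by rw [h.eep]; simp) (by rw [h.eep]; simp) w1)
    · obtain ⟨x', y', w', p1, p2, p3, e'⟩ := h.other S hf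
        (fun e => n1 (by rw [e, h.eep]; simp)) e
      have ff : S.Face x' y' w' := ⟨f, hf, e'⟩
      have a1 := f1.meet S ff c1
      have a2 := f3.meet S ff c1
      rw [e'] at n1 n2
      grind
  subst hkb
  have hi : Function.Injective ![u1, u2, v1, v2, a, k, S.pv eq, S.pv ep, z] := by
    rw [← List.nodup_ofFn]; simpa [List.ofFn_succ] using h.nd
  have rng : ∀ f ∈ S.E', f ≠ ep → f ≠ eq → S.pv f ∉
      univ.map (⟨_, hi⟩ : Fin 9 ↪ V) := by
    intro f hf h1 h2 hm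
    obtain ⟨i, -, hi'⟩ := mem_map.1 hm
    have n := S.pv_not_mem_C hf
    have n1 : S.pv f ≠ S.pv ep := fun e =>
      h1 (S.priv f hf ep h.hp (e ▸ S.pv_mem ep h.hp)).symm
    have n2 : S.pv f ≠ S.pv eq := fun e =>
      h2 (S.priv f hf eq h.hq (e ▸ S.pv_mem eq h.hq)).symm
    fin_cases i <;> simp at hi' <;> grind
  have fc : ∀ x y w, (w = a ∨ w = k) → S.Face x y w → ∃ f ∈ S.E', S.pv f ∉
      univ.map (⟨_, hi⟩ : Fin 9 ↪ V) ∧ f = insert (S.pv f) {x, y, w} := by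
    rintro x y w hw ⟨f, hf, e⟩
    have hwf : w ∈ f := by rw [e]; simp
    refine ⟨f, hf, rng f hf ?_ ?_, e⟩
    · rintro rfl
      rw [h.eep] at hwf; grind
    · rintro rfl
      rw [h.eeq] at hwf; grind
  refine S.exc_of_facts ⟨_, hi⟩ ?_ ?_ ?_ ⟨h.za, h.zb⟩
  · simp only [threeEdges, mem_insert, mem_singleton]
    rintro s (rfl | rfl | rfl) <;>
      simp only [map_insert, map_singleton, Function.Embedding.coeFn_mk]
    · exact h.eep ▸ S.sub _ h.hp
    · exact h.eeq ▸ S.sub _ h.hq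
    · exact h.eg ▸ h.hg
  · simp only [fourFaces, mem_insert, mem_singleton]
    rintro s (rfl | rfl | rfl | rfl) <;>
      simp only [map_insert, map_singleton, Function.Embedding.coeFn_mk]
    · exact fc _ _ _ (Or.inl rfl) f1
    · exact fc _ _ _ (Or.inr rfl) f3
    · exact fc _ _ _ (Or.inr rfl) f4
    · exact fc _ _ _ (Or.inl rfl) f2
  · intro f hf
    by_cases h1 : f = ep
    · exact Or.inl ⟨{0, 1, 7, 8}, by decide, by
        simp only [map_insert, map_singleton, Function.Embedding.coeFn_mk]; rw [h1]; exact h.eep⟩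
    by_cases h2 : f = eq
    · exact Or.inl ⟨{2, 3, 6, 8}, by decide, by
        simp only [map_insert, map_singleton, Function.Embedding.coeFn_mk]; rw [h2]; exact h.eeq⟩
    right
    obtain ⟨x, y, w, p1, p2, p3, e⟩ := h.other S hf h1 h2
    have ff : S.Face x y w := ⟨f, hf, e⟩
    have a1 := f1.meet S ff c1
    have a2 := f2.meet S ff c2
    have a3 := f3.meet S ff c1
    have a4 := f4.meet S ff c2
    have : (x = u1 ∧ y = v1 ∧ w = a) ∨ (x = u1 ∧ y = v2 ∧ w = k) ∨ (x = u2 ∧ y = v1 ∧ w = k) ∨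
        (x = u2 ∧ y = v2 ∧ w = a) := by grind
    rcases this with ⟨rfl, rfl, rfl⟩ | ⟨rfl, rfl, rfl⟩ | ⟨rfl, rfl, rfl⟩ | ⟨rfl, rfl, rfl⟩
    · exact ⟨{0, 2, 4}, by decide, rng f hf h1 h2, by
        simp only [map_insert, map_singleton, Function.Embedding.coeFn_mk]; exact e⟩
    · exact ⟨{0, 3, 5}, by decide, rng f hf h1 h2, by
        simp only [map_insert, map_singleton, Function.Embedding.coeFn_mk]; exact e⟩
    · exact ⟨{1, 2, 5}, by decide, rng f hf h1 h2, by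
        simp only [map_insert, map_singleton, Function.Embedding.coeFn_mk]; exact e⟩
    · exact ⟨{1, 3, 4}, by decide, rng f hf h1 h2, by
        simp only [map_insert, map_singleton, Function.Embedding.coeFn_mk]; exact e⟩

lemma Two.exc {g ep eq : Finset V} {a b z u1 u2 v1 v2 : V}
    (h : S.Two g ep eq a b z u1 u2 v1 v2) : Exceptional E := by
  obtain ⟨x, y, w, p1, p2, p3, p4, p5, p6⟩ := h.avoid S (Or.inr rfl) (Or.inr rfl)
  have e1 : x = u1 := by grind
  have e2 : y = v1 := by grind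
  rw [e1, e2] at p6
  rcases p3 with rfl | rfl
  · exact h.exc_aux S p6
  · exact (h.swap S).exc_aux S p6

lemma exc_case {g : Finset V} (hg : g ∈ E) (h2 : (g ∩ S.C).card ≤ 2) : Exceptional E := by
  classical
  set B := S.E'.filter fun f => S.pv f ∈ g with hB
  have hBc : B.card ≤ (g \ S.C).card := by
    refine card_le_card_of_injOn S.pv (fun f hf => ?_) fun f hf f' hf' e => ?_
    · rw [mem_coe, mem_filter] at hf
      exact mem_coe.2 (mem_sdiff.2 ⟨hf.2, S.pv_not_mem_C hf.1⟩)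
    · rw [mem_coe, mem_filter] at hf hf'
      exact (S.priv f hf.1 f' hf'.1 (e ▸ S.pv_mem f' hf'.1)).symm
  have hc := card_sdiff_add_card_inter g S.C
  have hg4 := S.h4 g hg
  have inB : ∀ f ∈ S.E', (∀ v ∈ g ∩ S.C, v ∉ f) → f ∈ B := by
    intro f hf h
    obtain ⟨v, hv⟩ := S.hint g hg f (S.sub f hf)
    rw [mem_inter] at hv
    refine mem_filter.2 ⟨hf, ?_⟩
    by_contra hh
    exact h v (mem_inter.2 ⟨hv.1, S.mem_C_of_ne hf hv.2 fun e => hh (e ▸ hv.1)⟩) hv.2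
  have BE : ∀ f ∈ B, f ∈ S.E' := fun f hf => (mem_filter.1 hf).1
  obtain ⟨v0, -⟩ := S.hint g hg g hg
  obtain ⟨e0, he0, -⟩ := S.cov v0
  have mem' : ∀ {f : Finset V}, f ∈ B ∨ f = e0 → f ∈ S.E' := fun h =>
    h.elim (BE _) fun e => e ▸ he0
  -- a vertex missed by a pair containing the trace lies in two edges of `B`
  have two : ∀ a ∈ g, ∀ w, w ≠ a → ¬ Adj E w a → (∀ f ∈ S.E', w ∈ f → f ∈ B) →
      w ∈ S.C ∧ ∃ f1 ∈ B, ∃ f2 ∈ B, f2 ≠ f1 ∧ w ∈ f1 ∧ w ∈ f2 ∧ ∀ v ∈ f2, v ∈ f1 → v = w := by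
    intro a ha w w1 w2 hw
    obtain ⟨f1, hf1, hw1⟩ := S.cov w
    have hwC : w ∈ S.C := by
      refine S.mem_C_of_ne hf1 hw1 fun e => w2 (adj hg ?_ ha w1)
      rw [e]; exact (mem_filter.1 (hw f1 hf1 hw1)).2
    obtain ⟨f2, hf2, p1, p2, p3⟩ := S.fact1 hf1 hw1 hwC
    exact ⟨hwC, f1, hw f1 hf1 hw1, f2, hw f2 hf2 p2, p1, hw1, p2, p3⟩
  obtain h0 | h1 | h2' : (g ∩ S.C).card = 0 ∨ (g ∩ S.C).card = 1 ∨ (g ∩ S.C).card = 2 := by omega
  · exfalso
    obtain ⟨e1, e2, e3, e4, m1, m2, m3, m4, hall⟩ := sub_four (s := B) (by omega) e0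
    obtain ⟨x, hx⟩ := S.hint e1 (S.sub _ (mem' m1)) e2 (S.sub _ (mem' m2))
    obtain ⟨y, hy⟩ := S.hint e3 (S.sub _ (mem' m3)) e4 (S.sub _ (mem' m4))
    obtain ⟨f, hf, a, b⟩ := S.tau x y
    have := hall f (inB f hf (by rw [card_eq_zero.1 h0]; simp))
    rw [mem_inter] at hx hy
    grind
  · exfalso
    obtain ⟨a, ha⟩ := card_eq_one.1 h1
    have hag : a ∈ g := (mem_inter.1 (ha ▸ mem_singleton_self a)).1
    obtain ⟨e1, e2, e3, m1, m2, m3, hall⟩ := sub_three (s := B) (by omega) e0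
    obtain ⟨x, hx⟩ := S.hint e1 (S.sub _ (mem' m1)) e2 (S.sub _ (mem' m2))
    rw [mem_inter] at hx
    obtain ⟨w, w1, w2, w3, w4⟩ := S.hnp a x
    obtain ⟨-, f1, hf1, f2, hf2, p1, p2, p3, -⟩ := two a hag w w1 w3 fun f hf hw =>
      inB f hf (by
        rw [ha]; simp only [mem_singleton, forall_eq]
        exact fun hh => w3 (adj (S.sub f hf) hw hh w1))
    have k : ∀ f ∈ B, w ∈ f → x ∉ f := fun f hf hw hh => w4 (adj (S.sub f (BE f hf)) hw hh w2)
    have a1 := hall f1 hf1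
    have a2 := hall f2 hf2
    have b1 := k f1 hf1 p2
    have b2 := k f2 hf2 p3
    grind
  · obtain ⟨a, b, hab, ha⟩ := card_eq_two.1 h2'
    have hag : a ∈ g ∩ S.C := by rw [ha]; simp
    have hbg : b ∈ g ∩ S.C := by rw [ha]; simp
    rw [mem_inter] at hag hbg
    obtain ⟨z, z1, z2, z3, z4⟩ := S.hnp a b
    have avo : ∀ f ∈ S.E', z ∈ f → a ∉ f ∧ b ∉ f := fun f hf hz =>
      ⟨fun hh => z3 (adj (S.sub f hf) hz hh z1), fun hh => z4 (adj (S.sub f hf) hz hh z2)⟩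
    have inB' : ∀ f ∈ S.E', a ∉ f → b ∉ f → f ∈ B := fun f hf h1 h2 => inB f hf (by
      rw [ha]; simp only [mem_insert, mem_singleton, forall_eq_or_imp, forall_eq]; exact ⟨h1, h2⟩)
    obtain ⟨zC, ep, hp, eq, hq, p1, p2, p3, p4⟩ := two a hag.1 z z1 z3 fun f hf hw =>
      inB' f hf (avo f hf hw).1 (avo f hf hw).2
    have hp' := BE ep hp
    have hq' := BE eq hq
    have hBeq : B = {ep, eq} := by
      refine (eq_of_subset_of_card_le ?_ ?_).symm
      · simp [insert_subset_iff, hp, hq]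
      · rw [card_pair p1.symm]; omega
    obtain ⟨u1, u2, a1, a2, a3, a4, a5, a6, a7, a8⟩ := S.shape hp' p2 zC
    obtain ⟨v1, v2, b1, b2, b3, b4, b5, b6, b7, b8⟩ := S.shape hq' p3 zC
    have n1 := avo ep hp' p2
    have n2 := avo eq hq' p3
    have q1 := S.pv_not_mem_C hp'
    have q2 := S.pv_not_mem_C hq'
    have q3 : S.pv eq ≠ S.pv ep := fun e => p1 (S.priv eq hq' ep hp' (e ▸ S.pv_mem ep hp')).symm
    have q4 := S.pv_mem ep hp'
    have q5 := S.pv_mem eq hq'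
    have q6 := (mem_filter.1 hp).2
    have q7 := (mem_filter.1 hq).2
    have r1 := p4 v1 b6
    have r2 := p4 v2 b7
    refine Two.exc S (g := g) (ep := ep) (eq := eq) (a := a) (b := b) (z := z) (u1 := u1) (u2 := u2)
      (v1 := v1) (v2 := v2) ⟨hg, hp', hq', ?_, ?_, ?_, ?_,
        ⟨a4, a5, b4, b5, hag.2, hbg.2, zC⟩, z3, z4, fun f hf h1 h2 => ?_⟩
    · refine (eq_of_subset_of_card_le ?_ ?_).symm
      · simp [insert_subset_iff, hag.1, hbg.1, q6, q7]
      · rw [card_insert_of_notMem (by grind), card_insert_of_notMem (by grind), card_pair q3]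
        omega
    · ext v
      simp only [mem_insert, mem_singleton]
      exact ⟨fun h => by have := a8 v h; tauto, by rintro (rfl | rfl | rfl | rfl) <;> assumption⟩
    · ext v
      simp only [mem_insert, mem_singleton]
      exact ⟨fun h => by have := b8 v h; tauto, by rintro (rfl | rfl | rfl | rfl) <;> assumption⟩
    · have t1 := hag.2
      have t2 := hbg.2
      clear two inB inB' avo a8 b8 p4 hBeq hBc hc BE mem' hB ha h2 h2' hg4
      simp only [List.nodup_cons, List.mem_cons, List.not_mem_nil, not_or, List.nodup_nil]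
      refine ⟨⟨?_, ?_, ?_, ?_, ?_, ?_, ?_, ?_, ?_⟩, ⟨?_, ?_, ?_, ?_, ?_, ?_, ?_, ?_⟩,
        ⟨?_, ?_, ?_, ?_, ?_, ?_, ?_⟩, ⟨?_, ?_, ?_, ?_, ?_, ?_⟩, ⟨?_, ?_, ?_, ?_, ?_⟩,
        ⟨?_, ?_, ?_, ?_⟩, ⟨?_, ?_, ?_⟩, ⟨?_, ?_⟩, ?_⟩ <;> grind
    · by_contra hh
      have := inB' f hf (fun h => hh (Or.inl h)) (fun h => hh (Or.inr h))
      rw [hBeq] at this
      grind

end Setup

theorem main {E : Finset (Finset V)} (hrank : E.sup card = 4)
    (hint : ∀ e ∈ E, ∀ f ∈ E, (e ∩ f).Nonempty) (hcov : ∀ v, ∃ e ∈ E, v ∈ e) :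
    domNum E = 3 ↔ (∃ C : Finset V, C.card ≤ 6 ∧ IsCore E C) ∨ SevenCore E ∨ Exceptional E := by
  have h4 : ∀ e ∈ E, e.card ≤ 4 := fun e he => hrank ▸ le_sup (f := card) he
  have hne : Nonempty V := by
    obtain ⟨e, he⟩ : E.Nonempty := by
      rw [nonempty_iff_ne_empty]; rintro rfl; simp at hrank
    obtain ⟨v, -⟩ := hint e he e he
    exact ⟨v⟩
  constructor
  · intro h
    obtain ⟨S⟩ := exists_setup h4 hint hcov (noPair_of_domNum h)
    by_cases h3 : ∀ g ∈ E, 3 ≤ (g ∩ S.C).card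
    · exact (S.core_case h3).imp_right Or.inl
    · push Not at h3
      obtain ⟨g, hg, h2⟩ := h3
      exact Or.inr (Or.inr (S.exc_case hg (by omega)))
  · rintro (⟨C, -, h⟩ | ⟨c, h, -⟩ | h)
    · exact domNum_of_core h4 hint hcov h
    · exact domNum_of_core h4 hint hcov h
    · exact domNum_of_exceptional hcov h

end Pool.Agent.Lib.MP_d09955_co
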