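import Mathlib

set_option autoImplicit false

namespace Pool.Agent.Lib.MP_d09955_co

/-- number of set bits below `n` -/
def cnt (n m : ℕ) : ℕ := ((List.range n).filter fun i => m.testBit i).length

def hits (fam : List ℕ) (m : ℕ) : Bool := fam.all fun e => m &&& e != 0

def m3 (a b c : ℕ) : ℕ := 2 ^ a ||| 2 ^ b ||| 2 ^ c

def hasF (fam : List ℕ) : Bool :=
  (List.range 7).any fun a => (List.range 7).any fun b => (List.range 7).any fun x =>
    fam.contains (m3 a b x) && (List.range 7).any fun c => (List.range 7).any fun d =>
      fam.contains (m3 c d x) && (List.range 7).any fun y =>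
        fam.contains (m3 a c y) && fam.contains (m3 b d y) && (List.range 7).any fun z =>
          fam.contains (m3 b c z) && fam.contains (m3 a d z) &&
            decide ([a, b, c, d, x, y, z].Nodup)

def pairMasks (n : ℕ) : List (ℕ × ℕ) :=
  (List.range n).flatMap fun x => (List.range n).map fun y => (x, y)

def go : ℕ → ℕ → List ℕ → Bool
  | 0, _, _ => false
  | f + 1, n, fam =>
    match (pairMasks n).find? fun p => hits fam (2 ^ p.1 ||| 2 ^ p.2) with
    | none => decide (n ≤ 6) || (decide (n = 7) && hasF fam)
    | some p => (List.range (2 ^ n)).all fun m =>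
        m.testBit p.1 || m.testBit p.2 || !hits fam m ||
          (if cnt n m = 3 then go f n (m :: fam)
          else if cnt n m = 2 then go f (n + 1) ((m ||| 2 ^ n) :: fam)
          else if cnt n m = 1 then go f (n + 2) ((m ||| 2 ^ n ||| 2 ^ (n + 1)) :: fam)
          else decide (4 ≤ cnt n m))

theorem go_true : go 12 3 [7] = true := by decide +kernel

end Pool.Agent.Lib.MP_d09955_co
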